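import Pool.Agent.OBC.Swap

set_option autoImplicit false
set_option linter.unusedSectionVars false

/-! Independence of the colour from the components at the primes at least seven. -/

namespace Pool.Agent.OBC

open Finset Pointwise

section
variable {A : Type*} [AddCommGroup A]

namespace Swap
variable {f : A → ℤ} (h : Swap f)
include h

theorem ne_of_coprime {p b : ℕ} (hp : p.Prime) {y z : A} (hz : (p ^ b) • z = 0)
    (hy : (addOrderOf y).Coprime p) (h0 : f (y + z) ≠ 0) (t : ℕ) (ht : ¬ p ∣ t) :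
    f (y + t • z) ≠ 0 := by
  have hzo : addOrderOf z ∣ p ^ b := addOrderOf_dvd_of_nsmul_eq_zero hz
  have hco : (addOrderOf y).Coprime (addOrderOf z) :=
    Nat.Coprime.coprime_dvd_right hzo (Nat.Coprime.pow_right b hy)
  have htz : t.Coprime (addOrderOf z) :=
    Nat.Coprime.coprime_dvd_right hzo
      (Nat.Coprime.pow_right b ((Nat.Prime.coprime_iff_not_dvd hp).2 ht).symm)
  intro h1
  exact h0 ((h.mul_snd hco t htz).1 h1)

theorem period {p b : ℕ} (hp : p.Prime) {y z : A} (hz : (p ^ b) • z = 0)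
    (hy : (addOrderOf y).Coprime p) (h0 : f (y + z) ≠ 0) (t i : ℕ) (ht : ¬ p ∣ t) :
    f (y + (t + i * p) • z) = f (y + t • z) := by
  induction i with
  | zero => rw [zero_mul, add_zero]
  | succ i ih =>
    have hG : ∀ j : ℕ, f ((y + (t + i * p) • z) + j • (p • z)) ≠ 0 := by
      intro j
      have h1 : (y + (t + i * p) • z) + j • (p • z) = y + (t + (i + j) * p) • z := by
        rw [add_assoc, smul_smul, ← add_nsmul]
        congr 2
        ring
      rw [h1]
      apply h.ne_of_coprime hp hz hy h0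
      intro h2
      exact ht ((Nat.dvd_add_left (Dvd.intro_left _ rfl)).1 h2)
    have h1 := h.prog (g := y + (t + i * p) • z) (e := p • z) (p ^ b)
      (pow_pos hp.pos b) (by rw [smul_comm, hz, nsmul_zero]) hG
    rw [← ih, ← h1, add_assoc, ← add_nsmul]
    congr 3
    ring

theorem modEq {p b : ℕ} (hp : p.Prime) {y z : A} (hz : (p ^ b) • z = 0)
    (hy : (addOrderOf y).Coprime p) (h0 : f (y + z) ≠ 0) (t s : ℕ) (ht : ¬ p ∣ t)
    (hts : t ≡ s [MOD p]) : f (y + t • z) = f (y + s • z) := by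
  have hs : ¬ p ∣ s := fun h1 => ht ((Nat.ModEq.dvd_iff hts (dvd_refl p)).2 h1)
  rcases le_total t s with h1 | h1
  · obtain ⟨i, hi⟩ := (Nat.modEq_iff_dvd' h1).1 hts
    have h2 : s = t + i * p := by rw [mul_comm i p, ← hi]; omega
    rw [h2, h.period hp hz hy h0 t i ht]
  · obtain ⟨i, hi⟩ := (Nat.modEq_iff_dvd' h1).1 hts.symm
    have h2 : t = s + i * p := by rw [mul_comm i p, ← hi]; omega
    rw [h2, h.period hp hz hy h0 s i hs]

/-- the colour classes modulo `p` -/
theorem class_card {p b : ℕ} (hp : p.Prime) (hp7 : 7 ≤ p) {y z : A} (hz : (p ^ b) • z = 0)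
    (hy : (addOrderOf y).Coprime p) (h0 : f (y + z) ≠ 0) (c : ℤ) (hc : c ≠ 0)
    (T : Finset (ZMod p)) (hT : ∀ s : ZMod p, s ∈ T ↔ s ≠ 0 ∧ f (y + s.val • z) = c) :
    T.card ≤ 2 ∨ p ≤ T.card + 1 := by
  have : Fact p.Prime := ⟨hp⟩
  have : NeZero p := ⟨hp.ne_zero⟩
  rcases T.eq_empty_or_nonempty with h1 | h1
  · left; rw [h1]; simp
  have hval : ∀ s : ZMod p, s ≠ 0 → ¬ p ∣ s.val := by
    intro s hs hd
    apply hs
    have := (ZMod.natCast_eq_zero_iff s.val p).2 hd
    rwa [ZMod.natCast_zmod_val] at this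
  have hsub : T + T ⊆ (insert 0 T).image (fun s => 2 * s) := by
    intro s hs
    obtain ⟨s1, hs1, s2, hs2, rfl⟩ := Finset.mem_add.1 hs
    rw [hT] at hs1 hs2
    have h2ne : (2 : ZMod p) ≠ 0 := by
      intro h2
      have h3 : ((2 : ℕ) : ZMod p) = 0 := by exact_mod_cast h2
      have h4 := Nat.le_of_dvd (by norm_num) ((ZMod.natCast_eq_zero_iff 2 p).1 h3)
      omega
    rw [Finset.mem_image]
    refine ⟨(s1 + s2) / 2, ?_, by field_simp⟩
    rw [Finset.mem_insert]
    by_cases hm : (s1 + s2) / 2 = 0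
    · left; exact hm
    · right
      rw [hT]
      refine ⟨hm, ?_⟩
      -- an integral midpoint
      obtain ⟨m', i, hm'⟩ : ∃ m' i : ℕ, 2 * m' = s1.val + (s2.val + i * p) := by
        obtain ⟨q, hq⟩ := hp.odd_of_ne_two (by omega)
        rcases Nat.even_or_odd' (s1.val + s2.val) with ⟨j, hj | hj⟩
        · exact ⟨j, 0, by omega⟩
        · exact ⟨j + q + 1, 1, by omega⟩
      have hcast : ((m' : ℕ) : ZMod p) = (s1 + s2) / 2 := by
        rw [eq_div_iff h2ne]
        have h3 : ((2 * m' : ℕ) : ZMod p) = ((s1.val + (s2.val + i * p) : ℕ) : ZMod p) := by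
          rw [hm']
        push_cast at h3
        rw [ZMod.natCast_zmod_val, ZMod.natCast_zmod_val, ZMod.natCast_self, mul_zero,
          add_zero] at h3
        rw [mul_comm, h3]
      have hm'p : ¬ p ∣ m' := by
        intro hd
        apply hm
        rw [← hcast]
        exact (ZMod.natCast_eq_zero_iff m' p).2 hd
      have h3 : f (y + (s2.val + i * p) • z) = c := by
        rw [h.period hp hz hy h0 _ i (hval s2 hs2.1)]
        exact hs2.2
      have h4 := h.mid (a := y + s1.val • z) (b := y + (s2.val + i * p) • z) (m := y + m' • z)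
        (by rw [hs1.2, h3]) (by rw [hs1.2]; exact hc) (h.ne_of_coprime hp hz hy h0 m' hm'p)
        (by
          rw [nsmul_add, smul_smul, hm', add_nsmul, two_nsmul]
          abel)
      rw [hs1.2] at h4
      rw [← h4]
      symm
      apply h.modEq hp hz hy h0 _ _ hm'p
      apply (ZMod.natCast_eq_natCast_iff _ _ _).1
      rw [hcast, ZMod.natCast_zmod_val]
  have h2 := ZMod.cauchy_davenport hp h1 h1
  have h3 : (T + T).card ≤ T.card + 1 :=
    (Finset.card_le_card hsub).trans (Finset.card_image_le.trans (Finset.card_insert_le _ _))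
  have h4 : 0 < T.card := Finset.card_pos.2 h1
  rcases le_total p (T.card + T.card - 1) with h5 | h5
  · rw [min_eq_left h5] at h2
    right; omega
  · rw [min_eq_right h5] at h2
    left; omega

theorem prime_power {p b : ℕ} (hp : p.Prime) (hp7 : 7 ≤ p) {y z : A} (hz : (p ^ b) • z = 0)
    (hy : (addOrderOf y).Coprime p) (u : ℕ) (hu : ¬ p ∣ u) :
    f (y + u • z) = f (y + z) := by
  have : Fact p.Prime := ⟨hp⟩
  have : NeZero p := ⟨hp.ne_zero⟩
  have hzo : addOrderOf z ∣ p ^ b := addOrderOf_dvd_of_nsmul_eq_zero hz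
  by_cases h0 : f (y + z) = 0
  · rw [h0]
    have hco : (addOrderOf y).Coprime (addOrderOf z) :=
      Nat.Coprime.coprime_dvd_right hzo (Nat.Coprime.pow_right b hy)
    have huz : u.Coprime (addOrderOf z) :=
      Nat.Coprime.coprime_dvd_right hzo
        (Nat.Coprime.pow_right b ((Nat.Prime.coprime_iff_not_dvd hp).2 hu).symm)
    exact (h.mul_snd hco u huz).2 h0
  · have hval : ∀ s : ZMod p, s ≠ 0 → ¬ p ∣ s.val := by
      intro s hs hd
      apply hs
      have := (ZMod.natCast_eq_zero_iff s.val p).2 hd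
      rwa [ZMod.natCast_zmod_val] at this
    by_contra hcon
    set c : ℤ := f (y + z) with hc
    have hnz : ∀ s : ZMod p, s ≠ 0 → f (y + s.val • z) ≠ 0 := fun s hs =>
      h.ne_of_coprime hp hz hy h0 _ (hval s hs)
    have hc1 : c = 1 ∨ c = -1 := (h.val _).resolve_left h0
    have hu0 : f (y + u • z) ≠ 0 := h.ne_of_coprime hp hz hy h0 u hu
    have hu1 : f (y + u • z) = - c := by
      rcases h.val (y + u • z) with h5 | h5 | h5 <;> omega
    let T1 : Finset (ZMod p) := univ.filter fun s => s ≠ 0 ∧ f (y + s.val • z) = c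
    let T2 : Finset (ZMod p) := univ.filter fun s => s ≠ 0 ∧ f (y + s.val • z) = -c
    have hT1 : ∀ s, s ∈ T1 ↔ s ≠ 0 ∧ f (y + s.val • z) = c := fun s => by
      simp [T1]
    have hT2 : ∀ s, s ∈ T2 ↔ s ≠ 0 ∧ f (y + s.val • z) = -c := fun s => by
      simp [T2]
    have hu1' : (1 : ZMod p) ∈ T1 := by
      rw [hT1]
      refine ⟨one_ne_zero, ?_⟩
      rw [hc]
      nth_rewrite 2 [← one_nsmul z]
      apply h.modEq hp hz hy h0
      · exact hval 1 one_ne_zero
      · apply (ZMod.natCast_eq_natCast_iff _ _ _).1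
        rw [ZMod.natCast_zmod_val, Nat.cast_one]
    have hu2' : (u : ZMod p) ∈ T2 := by
      have hune : (u : ZMod p) ≠ 0 := fun h1 => hu ((ZMod.natCast_eq_zero_iff u p).1 h1)
      rw [hT2]
      refine ⟨hune, ?_⟩
      rw [← hu1]
      apply h.modEq hp hz hy h0
      · exact hval _ hune
      · apply (ZMod.natCast_eq_natCast_iff _ _ _).1
        rw [ZMod.natCast_zmod_val]
    have hdisj : Disjoint T1 T2 := by
      rw [Finset.disjoint_left]
      intro s hs1 hs2
      rw [hT1] at hs1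
      rw [hT2] at hs2
      have := hs1.2.symm.trans hs2.2
      omega
    have hunion : T1 ∪ T2 = (univ : Finset (ZMod p)).erase 0 := by
      ext s
      rw [Finset.mem_union, hT1, hT2, Finset.mem_erase]
      constructor
      · rintro (h1 | h1)
        · exact ⟨h1.1, Finset.mem_univ _⟩
        · exact ⟨h1.1, Finset.mem_univ _⟩
      · rintro ⟨h1, _⟩
        rcases h.val (y + s.val • z) with h5 | h5 | h5
        · exact absurd h5 (hnz s h1)
        · rcases hc1 with h6 | h6
          · left; exact ⟨h1, by omega⟩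
          · right; exact ⟨h1, by omega⟩
        · rcases hc1 with h6 | h6
          · right; exact ⟨h1, by omega⟩
          · left; exact ⟨h1, by omega⟩
    have hcard : T1.card + T2.card = p - 1 := by
      rw [← Finset.card_union_of_disjoint hdisj, hunion, Finset.card_erase_of_mem (mem_univ _),
        Finset.card_univ, ZMod.card]
    have h1 : 0 < T1.card := Finset.card_pos.2 ⟨_, hu1'⟩
    have h2 : 0 < T2.card := Finset.card_pos.2 ⟨_, hu2'⟩
    have h3 := h.class_card hp hp7 hz hy h0 c h0 T1 hT1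
    have h4 := h.class_card hp hp7 hz hy h0 (-c) (by omega) T2 hT2
    omega

theorem indep (w : ℕ) : (∀ p : ℕ, p.Prime → p ∣ w → 7 ≤ p) → ∀ (y z : A) (u : ℕ), w • z = 0 →
    (addOrderOf y).Coprime w → u.Coprime w → f (y + u • z) = f (y + z) := by
  induction w using Nat.recOnPosPrimePosCoprime with
  | prime_pow p n hp hn =>
    intro h7 y z u hz hy hu
    have hpd : p ∣ p ^ n := dvd_pow_self p hn.ne'
    exact h.prime_power hp (h7 p hp hpd) hz (Nat.Coprime.coprime_dvd_right hpd hy) u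
      (fun hd => by
        have h1 : p ∣ 1 := by
          have := Nat.dvd_gcd hd hpd
          rwa [Nat.Coprime.gcd_eq_one hu] at this
        exact hp.one_lt.ne' (Nat.dvd_one.1 h1))
  | zero =>
    intro h7
    exact absurd (h7 2 Nat.prime_two (dvd_zero _)) (by norm_num)
  | one =>
    intro _ y z u hz _ _
    rw [one_nsmul] at hz
    rw [hz, nsmul_zero]
  | coprime a b ha hb hab iha ihb =>
    intro h7 y z u hz hy hu
    have h7a : ∀ p : ℕ, p.Prime → p ∣ a → 7 ≤ p := fun p hp hd => h7 p hp (Dvd.dvd.mul_right hd _)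
    have h7b : ∀ p : ℕ, p.Prime → p ∣ b → 7 ≤ p := fun p hp hd => h7 p hp (Dvd.dvd.mul_left hd _)
    have hbez : (1 : ℤ) = a * Nat.gcdA a b + b * Nat.gcdB a b := by
      rw [← Nat.gcd_eq_gcd_ab, Nat.Coprime.gcd_eq_one hab]; rfl
    set z1 : A := ((b : ℤ) * Nat.gcdB a b) • z with hz1
    set z2 : A := ((a : ℤ) * Nat.gcdA a b) • z with hz2
    have hzz : z = z1 + z2 := by
      rw [hz1, hz2, ← add_zsmul, add_comm, ← hbez, one_zsmul]
    have hz' : ((a : ℤ) * (b : ℤ)) • z = 0 := by
      rw [← Nat.cast_mul, natCast_zsmul]; exact hz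
    have e1 : a • z1 = 0 := by
      rw [hz1, ← natCast_zsmul, smul_smul, ← mul_assoc, mul_comm, ← smul_smul, hz', smul_zero]
    have e2 : b • z2 = 0 := by
      rw [hz2, ← natCast_zsmul, smul_smul, ← mul_assoc, mul_comm (b : ℤ) (a : ℤ), mul_comm,
        ← smul_smul, hz', smul_zero]
    have hya : (addOrderOf y).Coprime a := Nat.Coprime.coprime_mul_right_right hy
    have hyb : (addOrderOf y).Coprime b := Nat.Coprime.coprime_mul_left_right hy
    have hua : u.Coprime a := Nat.Coprime.coprime_mul_right_right hu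
    have hub : u.Coprime b := Nat.Coprime.coprime_mul_left_right hu
    have f1 : f ((y + u • z2) + u • z1) = f ((y + u • z2) + z1) := by
      apply iha h7a _ _ _ e1 _ hua
      have hd : addOrderOf (y + u • z2) ∣ addOrderOf y * b := by
        apply addOrderOf_dvd_of_nsmul_eq_zero
        rw [nsmul_add, mul_nsmul, addOrderOf_nsmul_eq_zero, nsmul_zero, zero_add, mul_nsmul',
          smul_comm b u, e2, nsmul_zero, nsmul_zero]
      exact Nat.Coprime.coprime_dvd_left hd (Nat.Coprime.mul_left hya hab.symm)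
    have f2 : f ((y + z1) + u • z2) = f ((y + z1) + z2) := by
      apply ihb h7b _ _ _ e2 _ hub
      have hd : addOrderOf (y + z1) ∣ addOrderOf y * a := by
        apply addOrderOf_dvd_of_nsmul_eq_zero
        rw [nsmul_add, mul_nsmul, addOrderOf_nsmul_eq_zero, nsmul_zero, zero_add, mul_nsmul',
          e1, nsmul_zero]
      exact Nat.Coprime.coprime_dvd_left hd (Nat.Coprime.mul_left hyb hab)
    rw [hzz, nsmul_add]
    calc f (y + (u • z1 + u • z2)) = f ((y + u • z2) + u • z1) := by congr 1; abel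
      _ = f ((y + u • z2) + z1) := f1
      _ = f ((y + z1) + u • z2) := by congr 1; abel
      _ = f ((y + z1) + z2) := f2
      _ = f (y + (z1 + z2)) := by congr 1; abel

/-- the support contains no element of odd order coprime to five -/
theorem zero_of_coprime (x : A) (hx : 0 < addOrderOf x) (h2 : ¬ 2 ∣ addOrderOf x)
    (h5 : ¬ 5 ∣ addOrderOf x) : f x = 0 := by
  obtain ⟨a, w, hw3, haw⟩ := Nat.exists_eq_pow_mul_and_not_dvd hx.ne' 3 (by norm_num)
  have hw0 : 0 < w := by
    rcases Nat.eq_zero_or_pos w with h0 | h0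
    · rw [h0, mul_zero] at haw; omega
    · exact h0
  have h7 : ∀ p : ℕ, p.Prime → p ∣ w → 7 ≤ p := by
    intro p hp hpw
    have hpo : p ∣ addOrderOf x := by rw [haw]; exact Dvd.dvd.mul_left hpw _
    by_contra hlt
    have hlt' : p < 7 := by omega
    interval_cases p
    · exact absurd hp (by norm_num)
    · exact absurd hp (by norm_num)
    · exact h2 hpo
    · exact hw3 hpw
    · exact absurd hp (by norm_num)
    · exact h5 hpo
    · exact absurd hp (by norm_num)
  have hcop : (3 ^ a).Coprime w :=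
    Nat.Coprime.pow_left a ((Nat.Prime.coprime_iff_not_dvd Nat.prime_three).2 hw3)
  have h2w : Nat.Coprime 2 w := by
    rw [Nat.Prime.coprime_iff_not_dvd Nat.prime_two]
    intro hd
    exact absurd (h7 2 Nat.prime_two hd) (by norm_num)
  have hbez : (1 : ℤ) = (3 ^ a : ℕ) * Nat.gcdA (3 ^ a) w + w * Nat.gcdB (3 ^ a) w := by
    rw [← Nat.gcd_eq_gcd_ab, Nat.Coprime.gcd_eq_one hcop]; rfl
  set y0 : A := ((w : ℤ) * Nat.gcdB (3 ^ a) w) • x with hy0
  set z0 : A := (((3 ^ a : ℕ) : ℤ) * Nat.gcdA (3 ^ a) w) • x with hz0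
  have hx' : (((3 ^ a : ℕ) : ℤ) * (w : ℤ)) • x = 0 := by
    rw [← Nat.cast_mul, natCast_zsmul, ← haw, addOrderOf_nsmul_eq_zero]
  have hxx : x = y0 + z0 := by
    rw [hy0, hz0, ← add_zsmul, add_comm, ← hbez, one_zsmul]
  have e1 : (3 ^ a) • y0 = 0 := by
    rw [hy0, ← natCast_zsmul, smul_smul, ← mul_assoc, mul_comm, ← smul_smul, hx', smul_zero]
  have e2 : w • z0 = 0 := by
    rw [hz0, ← natCast_zsmul, smul_smul, ← mul_assoc, mul_comm (w : ℤ), mul_comm,
      ← smul_smul, hx', smul_zero]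
  have hstep : ∀ y : A, (3 ^ a) • y = 0 → f ((2 : ℕ) • y + z0) = - f (y + z0) := by
    intro y hy
    have hyo : addOrderOf ((2 : ℕ) • y) ∣ 3 ^ a := by
      apply addOrderOf_dvd_of_nsmul_eq_zero
      rw [smul_comm, hy, nsmul_zero]
    have h1 := h.indep w h7 ((2 : ℕ) • y) z0 2 e2 (Nat.Coprime.coprime_dvd_left hyo hcop) h2w
    rw [← h1, ← nsmul_add, h.dbl]
  have hiter : ∀ j : ℕ, f ((2 ^ j) • y0 + z0) = (-1) ^ j * f (y0 + z0) := by
    intro j
    induction j with
    | zero => rw [pow_zero, pow_zero, one_nsmul, one_mul]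
    | succ j ih =>
      have h1 := hstep ((2 ^ j) • y0) (by rw [smul_comm, e1, nsmul_zero])
      rw [smul_smul, ← pow_succ'] at h1
      rw [h1, ih, pow_succ]
      ring
  have h3 : ((2 ^ (3 ^ a)) : ℕ) • y0 = - y0 := by
    have h4 : (((3 : ℕ) : ℤ)) ^ (a + 1) ∣ (2 : ℤ) ^ 3 ^ a - (-1) ^ 3 ^ a :=
      dvd_sub_pow_of_dvd_sub (R := ℤ) (p := 3) (a := 2) (b := -1) (by norm_num) a
    have h5 : ((-1 : ℤ)) ^ 3 ^ a = -1 := Odd.neg_one_pow (Odd.pow (by decide))
    rw [h5, sub_neg_eq_add] at h4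
    have h6 : (3 ^ a : ℕ) ∣ 2 ^ 3 ^ a + 1 := by
      have h7 : (((3 ^ a : ℕ)) : ℤ) ∣ ((2 ^ 3 ^ a + 1 : ℕ) : ℤ) := by
        push_cast
        push_cast at h4
        exact (pow_dvd_pow 3 (Nat.le_succ a)).trans h4
      exact_mod_cast h7
    obtain ⟨q, hq⟩ := h6
    rw [eq_neg_iff_add_eq_zero]
    nth_rewrite 2 [← one_nsmul y0]
    rw [← add_nsmul, hq, mul_comm, mul_nsmul', e1, nsmul_zero]
  have h4 := hiter (3 ^ a)
  rw [h3, Odd.neg_one_pow (Odd.pow (by decide)), neg_one_mul] at h4
  have h5' : f (-y0 + z0) = f (y0 + z0) := by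
    have hyo : addOrderOf (-y0) ∣ 3 ^ a := by
      apply addOrderOf_dvd_of_nsmul_eq_zero
      rw [smul_neg, e1, neg_zero]
    have h6 := h.indep w h7 (-y0) z0 (w - 1) e2 (Nat.Coprime.coprime_dvd_left hyo hcop)
      ((Nat.coprime_self_sub_left hw0).2 (Nat.coprime_one_left _))
    have h8 : (w - 1) • z0 = -z0 := by
      rw [eq_neg_iff_add_eq_zero]
      nth_rewrite 2 [← one_nsmul z0]
      rw [← add_nsmul, Nat.sub_add_cancel hw0, e2]
    rw [← h6, h8, ← neg_add, h.neg]
  rw [hxx]
  omega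

end Swap

end

end Pool.Agent.OBC
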