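import Pool.Agent.TFA.General
import Pool.Agent.OBC.Swap2

set_option autoImplicit false
set_option linter.unusedSectionVars false

/-! Connection sets of triangle-free strongly regular graphs with a semiregular abelian group of
automorphisms having two orbits. -/

noncomputable section

namespace Pool.Agent.OBC

open Finset ComplexConjugate Pool.Agent.TFA

theorem exists_lift (m n t : ℕ) (hn : 0 < n) (hmn : m ∣ n) (ht : t.Coprime m) :
    ∃ t' : ℕ, t'.Coprime n ∧ t' ≡ t [MOD m] := by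
  have : NeZero n := ⟨hn.ne'⟩
  obtain ⟨v, hv⟩ := ZMod.unitsMap_surjective hmn (ZMod.unitOfCoprime t ht)
  refine ⟨(v : ZMod n).val, ZMod.val_coe_unit_coprime v, ?_⟩
  have h1 := congrArg (fun w : (ZMod m)ˣ => (w : ZMod m)) hv
  simp only [ZMod.unitsMap_val, ZMod.coe_unitOfCoprime] at h1
  apply (ZMod.natCast_eq_natCast_iff _ _ _).1
  rw [← h1, ← ZMod.natCast_val]

section
variable {A : Type*} [AddCommGroup A] [Fintype A] [DecidableEq A]

/-- connection sets `C`, `D` in the orbits and `S` between them -/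
structure BC (C D S : A → ℤ) (k μ : ℤ) : Prop where
  valC : ∀ x, C x = 0 ∨ C x = 1
  valD : ∀ x, D x = 0 ∨ D x = 1
  valS : ∀ x, S x = 0 ∨ S x = 1
  C0 : C 0 = 0
  D0 : D 0 = 0
  negC : ∀ x, C (-x) = C x
  negD : ∀ x, D (-x) = D x
  e1 : ∀ x, conv C C x + conv S (fun y => S (-y)) x = if x = 0 then k else μ * (1 - C x)
  e2 : ∀ x, conv D D x + conv (fun y => S (-y)) S x = if x = 0 then k else μ * (1 - D x)
  e3 : ∀ x, conv S D x + conv C S x = μ * (1 - S x)
  mu1 : 1 ≤ μ
  muk : μ < k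
  odd : Odd (Fintype.card A)

/-- the element `μ + C + D` of the group ring -/
def EE (C D : A → ℤ) (μ : ℤ) (x : A) : ℤ := (if x = 0 then μ else 0) + C x + D x

theorem ft_EE (C D : A → ℤ) (μ : ℤ) (χ : AddChar A ℂ) :
    ft (EE C D μ) χ = (μ : ℂ) + ft C χ + ft D χ := by
  unfold ft EE
  have h1 : ∀ x : A, (((if x = 0 then μ else 0) + C x + D x : ℤ) : ℂ) * χ x =
      (if x = 0 then (μ : ℂ) else 0) + (C x : ℂ) * χ x + (D x : ℂ) * χ x := by
    intro x
    by_cases hx : x = 0
    · subst hx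
      rw [if_pos rfl, if_pos rfl, AddChar.map_zero_eq_one]
      push_cast
      ring
    · rw [if_neg hx, if_neg hx]
      push_cast
      ring
  rw [Finset.sum_congr rfl fun x _ => h1 x, Finset.sum_add_distrib, Finset.sum_add_distrib,
    Finset.sum_ite_eq' Finset.univ (0 : A), if_pos (Finset.mem_univ _)]

theorem ft_add' (f g : A → ℤ) (χ : AddChar A ℂ) :
    ft (fun x => f x + g x) χ = ft f χ + ft g χ := by
  unfold ft
  rw [← Finset.sum_add_distrib]
  refine Finset.sum_congr rfl fun x _ => ?_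
  push_cast
  ring

theorem ft_rhs (C : A → ℤ) (hC0 : C 0 = 0) (k μ : ℤ) (χ : AddChar A ℂ) :
    ft (fun x => if x = 0 then k else μ * (1 - C x)) χ =
      ((k - μ : ℤ) : ℂ) + (μ : ℂ) * (∑ x, χ x) - (μ : ℂ) * ft C χ := by
  have h1 : ∀ x, (((if x = 0 then k else μ * (1 - C x)) : ℤ) : ℂ) * χ x =
      (if x = 0 then ((k - μ : ℤ) : ℂ) else 0) + (μ : ℂ) * χ x - (μ : ℂ) * ((C x : ℂ) * χ x) := by
    intro x
    by_cases hx : x = 0
    · subst hx
      rw [if_pos rfl, if_pos rfl, hC0, AddChar.map_zero_eq_one]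
      push_cast
      ring
    · rw [if_neg hx, if_neg hx]
      push_cast
      ring
  unfold ft
  rw [Finset.sum_congr rfl fun x _ => h1 x, Finset.sum_sub_distrib, Finset.sum_add_distrib,
    Finset.sum_ite_eq' Finset.univ (0 : A), if_pos (Finset.mem_univ _), Finset.mul_sum,
    Finset.mul_sum]

namespace BC
variable {C D S : A → ℤ} {k μ : ℤ} (h : BC C D S k μ)
include h

theorem q1 (χ : AddChar A ℂ) :
    ft C χ * ft C χ + ft S χ * ft (fun y => S (-y)) χ =
      ((k - μ : ℤ) : ℂ) + (μ : ℂ) * (∑ x, χ x) - (μ : ℂ) * ft C χ := by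
  rw [← ft_conv, ← ft_conv, ← ft_add', ← ft_rhs C h.C0 k μ χ]
  congr 1
  funext x
  exact h.e1 x

theorem q2 (χ : AddChar A ℂ) :
    ft D χ * ft D χ + ft (fun y => S (-y)) χ * ft S χ =
      ((k - μ : ℤ) : ℂ) + (μ : ℂ) * (∑ x, χ x) - (μ : ℂ) * ft D χ := by
  rw [← ft_conv, ← ft_conv, ← ft_add', ← ft_rhs D h.D0 k μ χ]
  congr 1
  funext x
  exact h.e2 x

theorem q3 (χ : AddChar A ℂ) :
    ft S χ * ft D χ + ft C χ * ft S χ = (μ : ℂ) * (∑ x, χ x) - (μ : ℂ) * ft S χ := by
  rw [← ft_conv, ← ft_conv, ← ft_add']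
  have h1 : (fun x => Pool.Agent.TFA.conv S D x + Pool.Agent.TFA.conv C S x) =
      fun x => μ * (1 - S x) := funext h.e3
  rw [h1]
  unfold ft
  rw [Finset.mul_sum, Finset.mul_sum, ← Finset.sum_sub_distrib]
  refine Finset.sum_congr rfl fun x _ => ?_
  push_cast
  ring

theorem sumCS : ∑ x, C x + ∑ x, S x = k := by
  have h1 := h.e1 0
  rw [if_pos rfl] at h1
  rw [← h1]
  unfold Pool.Agent.TFA.conv
  congr 1
  · refine Finset.sum_congr rfl fun x _ => ?_
    rw [zero_sub, h.negC]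
    rcases h.valC x with h2 | h2 <;> rw [h2] <;> rfl
  · refine Finset.sum_congr rfl fun x _ => ?_
    show S x = S x * S (-(0 - x))
    rw [zero_sub, neg_neg]
    rcases h.valS x with h2 | h2 <;> rw [h2] <;> rfl

theorem sumDS : ∑ x, D x + ∑ x, S x = k := by
  have h1 := h.e2 0
  rw [if_pos rfl] at h1
  rw [← h1]
  unfold Pool.Agent.TFA.conv
  congr 1
  · refine Finset.sum_congr rfl fun x _ => ?_
    rw [zero_sub, h.negD]
    rcases h.valD x with h2 | h2 <;> rw [h2] <;> rfl
  · rw [← Equiv.sum_comp (Equiv.neg A)]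
    refine Finset.sum_congr rfl fun x _ => ?_
    rw [Equiv.neg_apply]
    show S (-x) = S (-x) * S (0 - x)
    rw [zero_sub]
    rcases h.valS (-x) with h2 | h2 <;> rw [h2] <;> rfl

theorem sumD : ∑ x, D x = ∑ x, C x := by
  have h1 := h.sumCS
  have h2 := h.sumDS
  linarith

theorem p1 : (∑ x, C x) * (∑ x, C x) + (∑ x, S x) * (∑ x, S x) =
    k - μ + μ * (Fintype.card A : ℤ) - μ * ∑ x, C x := by
  have h1 := h.q1 0
  have h2 : ∑ x : A, (0 : AddChar A ℂ) x = (Fintype.card A : ℂ) := by simp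
  have h3 : ∑ x, S (-x) = ∑ x, S x := Equiv.sum_comp (Equiv.neg A) S
  rw [ft_zero, ft_zero, ft_zero, h2, h3] at h1
  have h4 : (((∑ x, C x) * (∑ x, C x) + (∑ x, S x) * (∑ x, S x) : ℤ) : ℂ) =
      ((k - μ + μ * (Fintype.card A : ℤ) - μ * ∑ x, C x : ℤ) : ℂ) := by
    rw [Int.cast_add, Int.cast_mul, Int.cast_mul, h1]
    push_cast
    ring
  exact Int.cast_injective h4

theorem p3 : 2 * (∑ x, C x) * (∑ x, S x) = μ * (Fintype.card A : ℤ) - μ * ∑ x, S x := by
  have h1 := h.q3 0
  have h2 : ∑ x : A, (0 : AddChar A ℂ) x = (Fintype.card A : ℂ) := by simp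
  rw [ft_zero, ft_zero, ft_zero, h2, h.sumD] at h1
  have h4 : ((2 * (∑ x, C x) * (∑ x, S x) : ℤ) : ℂ) =
      ((μ * (Fintype.card A : ℤ) - μ * ∑ x, S x : ℤ) : ℂ) := by
    rw [Int.cast_sub, Int.cast_mul, Int.cast_mul, Int.cast_mul μ, Int.cast_mul μ]
    rw [Int.cast_natCast, ← h1]
    push_cast
    ring
  exact Int.cast_injective h4

theorem delta_sq : (2 * (∑ x, C x - ∑ x, S x) + μ) * (2 * (∑ x, C x - ∑ x, S x) + μ) =
    μ * μ + 4 * (k - μ) := by
  have h1 := h.p1
  have h2 := h.p3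
  linear_combination 4 * h1 - 4 * h2

theorem char_E (χ : AddChar A ℂ) (hχ : χ ≠ 0) :
    ft (EE C D μ) χ = 0 ∨ (ft S χ = 0 ∧
      (ft (EE C D μ) χ = ((2 * (∑ x, C x - ∑ x, S x) + μ : ℤ) : ℂ) ∨
       ft (EE C D μ) χ = -((2 * (∑ x, C x - ∑ x, S x) + μ : ℤ) : ℂ))) := by
  by_cases h0 : ft (EE C D μ) χ = 0
  · exact Or.inl h0
  right
  have h1 := h.q1 χ
  have h2 := h.q2 χ
  have h3 := h.q3 χ
  have hs : ∑ x, χ x = 0 := AddChar.sum_eq_zero_iff_ne_zero.2 hχ
  rw [hs] at h1 h2 h3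
  rw [ft_EE] at h0 ⊢
  have hS : ft S χ = 0 := by
    have h4 : ft S χ * ((μ : ℂ) + ft C χ + ft D χ) = 0 := by linear_combination h3
    exact (mul_eq_zero.1 h4).resolve_right h0
  have hCD : ft C χ = ft D χ := by
    have h4 : (ft C χ - ft D χ) * ((μ : ℂ) + ft C χ + ft D χ) = 0 := by
      linear_combination h1 - h2
    exact sub_eq_zero.1 ((mul_eq_zero.1 h4).resolve_right h0)
  refine ⟨hS, ?_⟩
  apply sq_eq_sq_iff_eq_or_eq_neg.1
  have h5 := congrArg (fun z : ℤ => (z : ℂ)) h.delta_sq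
  rw [Int.cast_mul] at h5
  rw [sq, sq, h5]
  rw [hS] at h1
  rw [← hCD]
  push_cast
  push_cast at h1
  linear_combination 4 * h1

theorem ft_E_int (χ : AddChar A ℂ) : ∃ s : ℤ, ft (EE C D μ) χ = (s : ℂ) := by
  by_cases hχ : χ = 0
  · subst hχ
    exact ⟨_, ft_zero _⟩
  · rcases h.char_E χ hχ with h1 | ⟨_, h1 | h1⟩
    · exact ⟨0, by rw [h1]; simp⟩
    · exact ⟨_, h1⟩
    · exact ⟨-(2 * (∑ x, C x - ∑ x, S x) + μ), by rw [h1]; push_cast; ring⟩

theorem multE (x : A) (t : ℕ) (ht : t.Coprime (addOrderOf x)) :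
    EE C D μ (t • x) = EE C D μ x := by
  obtain ⟨t', h1, h2⟩ := exists_lift (addOrderOf x) (Fintype.card A) t Fintype.card_pos
    (addOrderOf_dvd_card) ht
  have h3 := multiplier (EE C D μ) h.ft_E_int t' h1.symm x
  rw [← h3]
  congr 1
  exact (nsmul_eq_nsmul_iff_modEq.2 h2).symm

theorem nonnegs (x y : A) : 0 ≤ C y * C (x - y) := by
  rcases h.valC y with h3 | h3 <;> rcases h.valC (x - y) with h4 | h4 <;> rw [h3, h4] <;> norm_num

theorem triC (a b : A) (ha : C a = 1) (hb : C b = 1) (hab : C (a + b) = 1) : False := by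
  have hne : a + b ≠ 0 := by
    intro h0
    rw [h0, h.C0] at hab
    exact absurd hab (by norm_num)
  have h1 := h.e1 (a + b)
  rw [if_neg hne, hab, sub_self, mul_zero] at h1
  have h2 : 0 ≤ Pool.Agent.TFA.conv S (fun y => S (-y)) (a + b) := by
    unfold Pool.Agent.TFA.conv
    apply Finset.sum_nonneg
    intro y _
    rcases h.valS y with h3 | h3 <;> rcases h.valS (-(a + b - y)) with h4 | h4 <;>
      simp only [h3, h4] <;> norm_num
  have h3 : 1 ≤ Pool.Agent.TFA.conv C C (a + b) := by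
    unfold Pool.Agent.TFA.conv
    rw [← Finset.add_sum_erase _ _ (Finset.mem_univ a), ha, add_sub_cancel_left, hb]
    have : 0 ≤ ∑ x ∈ (univ : Finset A).erase a, C x * C (a + b - x) :=
      Finset.sum_nonneg fun y _ => h.nonnegs _ _
    linarith
  linarith

theorem triD (a b : A) (ha : D a = 1) (hb : D b = 1) (hab : D (a + b) = 1) : False := by
  have hne : a + b ≠ 0 := by
    intro h0
    rw [h0, h.D0] at hab
    exact absurd hab (by norm_num)
  have h1 := h.e2 (a + b)
  rw [if_neg hne, hab, sub_self, mul_zero] at h1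
  have h2 : 0 ≤ Pool.Agent.TFA.conv (fun y => S (-y)) S (a + b) := by
    unfold Pool.Agent.TFA.conv
    apply Finset.sum_nonneg
    intro y _
    rcases h.valS (-y) with h3 | h3 <;> rcases h.valS (a + b - y) with h4 | h4 <;>
      simp only [h3, h4] <;> norm_num
  have h3 : 1 ≤ Pool.Agent.TFA.conv D D (a + b) := by
    unfold Pool.Agent.TFA.conv
    rw [← Finset.add_sum_erase _ _ (Finset.mem_univ a), ha, add_sub_cancel_left, hb]
    have : 0 ≤ ∑ x ∈ (univ : Finset A).erase a, D x * D (a + b - x) :=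
      Finset.sum_nonneg fun y _ => by
        rcases h.valD y with h3 | h3 <;> rcases h.valD (a + b - y) with h4 | h4 <;>
          rw [h3, h4] <;> norm_num
    linarith
  linarith

theorem odd_order (x : A) : ¬ 2 ∣ addOrderOf x := by
  intro h2
  have h3 : 2 ∣ Fintype.card A := h2.trans addOrderOf_dvd_card
  have h4 := h.odd
  rw [← Nat.not_even_iff_odd] at h4
  exact h4 (even_iff_two_dvd.2 h3)

theorem two_nsmul_ne (x : A) (hx : x ≠ 0) : (2 : ℕ) • x ≠ 0 := by
  intro h2
  have h3 := addOrderOf_dvd_of_nsmul_eq_zero h2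
  rcases (Nat.dvd_prime Nat.prime_two).1 h3 with h4 | h4
  · exact hx (AddMonoid.addOrderOf_eq_one_iff.1 h4)
  · exact h.odd_order x (by rw [h4])

theorem E_two (x : A) : EE C D μ ((2 : ℕ) • x) = EE C D μ x :=
  h.multE x 2 ((Nat.Prime.coprime_iff_not_dvd Nat.prime_two).2 (h.odd_order x))

theorem E_ne (x : A) (hx : x ≠ 0) : EE C D μ x = C x + D x := by
  unfold EE
  rw [if_neg hx]
  ring

theorem E_ne_add (x : A) (hx : x ≠ 0) : C ((2 : ℕ) • x) + D ((2 : ℕ) • x) = C x + D x := by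
  rw [← h.E_ne _ (h.two_nsmul_ne x hx), ← h.E_ne _ hx, h.E_two]

theorem dblC (x : A) (hx : C x = 1) : D x = 0 ∧ C ((2 : ℕ) • x) = 0 ∧ D ((2 : ℕ) • x) = 1 := by
  have hx0 : x ≠ 0 := by
    intro h0
    rw [h0, h.C0] at hx
    exact absurd hx (by norm_num)
  have h1 := h.E_ne_add x hx0
  have h2 : C ((2 : ℕ) • x) = 0 := by
    rcases h.valC ((2 : ℕ) • x) with h3 | h3
    · exact h3
    · rw [two_nsmul] at h3
      exact (h.triC x x hx hx h3).elim
  rcases h.valD x with h3 | h3 <;> rcases h.valD ((2 : ℕ) • x) with h4 | h4 <;>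
    rw [hx, h2, h3, h4] at h1 <;> omega

theorem dblD (x : A) (hx : D x = 1) : C x = 0 ∧ D ((2 : ℕ) • x) = 0 ∧ C ((2 : ℕ) • x) = 1 := by
  have hx0 : x ≠ 0 := by
    intro h0
    rw [h0, h.D0] at hx
    exact absurd hx (by norm_num)
  have h1 := h.E_ne_add x hx0
  have h2 : D ((2 : ℕ) • x) = 0 := by
    rcases h.valD ((2 : ℕ) • x) with h3 | h3
    · exact h3
    · rw [two_nsmul] at h3
      exact (h.triD x x hx hx h3).elim
  rcases h.valC x with h3 | h3 <;> rcases h.valC ((2 : ℕ) • x) with h4 | h4 <;>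
    rw [hx, h2, h3, h4] at h1 <;> omega

theorem swap : Swap (fun x => C x - D x) where
  val x := by
    rcases h.valC x with h1 | h1 <;> rcases h.valD x with h2 | h2 <;> simp only [h1, h2] <;> norm_num
  dbl x := by
    show C ((2 : ℕ) • x) - D ((2 : ℕ) • x) = -(C x - D x)
    by_cases hx0 : x = 0
    · rw [hx0, smul_zero, h.C0, h.D0]; norm_num
    · rcases h.valC x with h1 | h1
      · rcases h.valD x with h2 | h2
        · have h3 := h.E_ne_add x hx0
          rcases h.valC ((2 : ℕ) • x) with h4 | h4 <;> rcases h.valD ((2 : ℕ) • x) with h5 | h5 <;>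
            omega
        · obtain ⟨h3, h4, h5⟩ := h.dblD x h2
          omega
      · obtain ⟨h3, h4, h5⟩ := h.dblC x h1
        omega
  neg x := by
    show C (-x) - D (-x) = C x - D x
    rw [h.negC, h.negD]
  tri a b := by
    show C a - D a = C b - D b → C (a + b) - D (a + b) = C a - D a → C a - D a = 0
    intro h1 h2
    by_contra h3
    rcases h.valC a with ha | ha <;> rcases h.valD a with ha' | ha'
    · omega
    · have hb : D b = 1 := by
        rcases h.valC b with hb | hb <;> rcases h.valD b with hb' | hb' <;> omega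
      have hc : D (a + b) = 1 := by
        rcases h.valC (a + b) with hb | hb <;> rcases h.valD (a + b) with hb' | hb' <;> omega
      exact h.triD a b ha' hb hc
    · have hb : C b = 1 := by
        rcases h.valC b with hb | hb <;> rcases h.valD b with hb' | hb' <;> omega
      have hc : C (a + b) = 1 := by
        rcases h.valC (a + b) with hb | hb <;> rcases h.valD (a + b) with hb' | hb' <;> omega
      exact h.triC a b ha hb hc
    · omega
  mul x t ht := by
    show C (t • x) - D (t • x) = 0 ↔ C x - D x = 0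
    by_cases hx0 : x = 0
    · rw [hx0, smul_zero]
    · have htx : t • x ≠ 0 := by
        intro h1
        have h2 := addOrderOf_dvd_of_nsmul_eq_zero h1
        have h3 : addOrderOf x ∣ 1 := by
          have := Nat.dvd_gcd h2 (dvd_refl (addOrderOf x))
          rwa [Nat.Coprime.gcd_eq_one ht] at this
        exact hx0 (AddMonoid.addOrderOf_eq_one_iff.1 (Nat.dvd_one.1 h3))
      have h1 := h.multE x t ht
      rw [h.E_ne _ htx, h.E_ne _ hx0] at h1
      have key : ∀ y : A, C y - D y = 0 ↔ C y + D y = 0 := by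
        intro y
        rcases h.valC y with h2 | h2
        · rcases h.valD y with h3 | h3 <;> omega
        · have h3 := (h.dblC y h2).1
          omega
      rw [key, key, h1]

theorem val_E (x : A) (hx : x ≠ 0) : EE C D μ x = 0 ∨ EE C D μ x = 1 := by
  rw [h.E_ne x hx]
  rcases h.valC x with h1 | h1
  · rcases h.valD x with h2 | h2 <;> omega
  · have := (h.dblC x h1).1
    omega

theorem zero_E : EE C D μ 0 = μ := by
  unfold EE
  rw [if_pos rfl, h.C0, h.D0]
  ring

theorem ord_E (x : A) (hx : x ≠ 0) (h5 : ¬ 5 ∣ addOrderOf x) : EE C D μ x = 0 := by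
  have h1 : C x - D x = 0 :=
    h.swap.zero_of_coprime x (addOrderOf_pos x) (h.odd_order x) h5
  rw [h.E_ne x hx]
  rcases h.valC x with h2 | h2
  · omega
  · have := (h.dblC x h2).1
    omega

theorem sum_E : ∑ x, EE C D μ x = μ + 2 * ∑ x, C x := by
  unfold EE
  rw [Finset.sum_add_distrib, Finset.sum_add_distrib, Finset.sum_ite_eq' Finset.univ (0 : A),
    if_pos (Finset.mem_univ _), h.sumD]
  ring

end BC

end

end Pool.Agent.OBC
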