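import Pool.Agent.OBC.Main

set_option autoImplicit false
set_option linter.unusedSectionVars false

/-! Parameters of the connection sets. -/

noncomputable section

namespace Pool.Agent.OBC

open Finset ComplexConjugate Pool.Agent.TFA

/-- a finite abelian group is the product of a 5-group and a group of order prime to five -/
theorem exists_decomp5 (A : Type*) [AddCommGroup A] [Finite A] :
    ∃ (T H : Type) (_ : AddCommGroup T) (_ : AddCommGroup H) (_ : Fintype T) (_ : Fintype H)
      (n : ℕ), Nonempty (A ≃+ T × H) ∧ Fintype.card T = 5 ^ n ∧ ¬ 5 ∣ Fintype.card H := by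
  classical
  obtain ⟨ι, _, p, hp, e, ⟨f⟩⟩ := AddCommGroup.equiv_directSum_zmod_of_finite A
  have hne : ∀ i, NeZero (p i ^ e i) := fun i => ⟨pow_ne_zero _ (hp i).ne_zero⟩
  let g1 : (DirectSum ι fun i => ZMod (p i ^ e i)) ≃+ (∀ i, ZMod (p i ^ e i)) :=
    DirectSum.addEquivProd _
  let g2 : (∀ i, ZMod (p i ^ e i)) ≃+
      (∀ i : {i // p i = 5}, ZMod (p i ^ e i)) × (∀ i : {i // ¬ p i = 5}, ZMod (p i ^ e i)) :=
    { Equiv.piEquivPiSubtypeProd (fun i => p i = 5) (fun i => ZMod (p i ^ e i)) with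
      map_add' := fun _ _ => rfl }
  refine ⟨(∀ i : {i // p i = 5}, ZMod (p i ^ e i)), (∀ i : {i // ¬ p i = 5}, ZMod (p i ^ e i)),
    inferInstance, inferInstance, inferInstance, inferInstance,
    ∑ i : {i // p i = 5}, e i, ⟨(f.trans g1).trans g2⟩, ?_, ?_⟩
  · rw [Fintype.card_pi, ← Finset.prod_pow_eq_pow_sum]
    refine Finset.prod_congr rfl fun i _ => ?_
    rw [ZMod.card, i.2]
  · rw [Fintype.card_pi]
    intro h5
    obtain ⟨i, _, hi⟩ := (Nat.Prime.prime Nat.prime_five).exists_mem_finset_dvd h5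
    rw [ZMod.card] at hi
    have h6 := Nat.prime_five.dvd_of_dvd_pow hi
    exact i.2 ((Nat.prime_dvd_prime_iff_eq Nat.prime_five (hp i)).1 h6).symm

theorem ED.equiv {A B : Type*} [AddCommGroup A] [Fintype A] [DecidableEq A] [AddCommGroup B]
    [Fintype B] [DecidableEq B] (e : A ≃+ B) {E S : A → ℤ} {μ δ s : ℤ} (h : ED E S μ δ s) :
    ED (fun b => E (e.symm b)) (fun b => S (e.symm b)) μ δ s := by
  have hcard : Fintype.card B = Fintype.card A := (Fintype.card_congr e.toEquiv).symm
  have hft : ∀ (f : A → ℤ) (χ : AddChar B ℂ), ft (fun b => f (e.symm b)) χ =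
      ft f (χ.compAddMonoidHom e.toAddMonoidHom) := by
    intro f χ
    unfold ft
    rw [← Equiv.sum_comp e.toEquiv]
    refine Finset.sum_congr rfl fun x _ => ?_
    simp
  have hne : ∀ χ : AddChar B ℂ, χ ≠ 0 → χ.compAddMonoidHom e.toAddMonoidHom ≠ 0 := by
    intro χ hχ
    rw [AddChar.ne_zero_iff] at hχ ⊢
    obtain ⟨b, hb⟩ := hχ
    refine ⟨e.symm b, ?_⟩
    have h1 : (χ.compAddMonoidHom e.toAddMonoidHom) (e.symm b) = χ (e (e.symm b)) := rfl
    rw [h1, AddEquiv.apply_symm_apply]
    exact hb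
  refine ⟨?_, ?_, ?_, ?_, ?_, ?_, ?_, h.mu1, h.mudel, ?_, h.par2⟩
  · show E (e.symm 0) = μ
    rw [map_zero]; exact h.zero
  · intro x hx
    apply h.val
    rw [Ne, EmbeddingLike.map_eq_zero_iff]
    exact hx
  · intro χ hχ
    rw [hft, hft]
    exact h.char _ (hne χ hχ)
  · rw [← h.sumE]
    exact Equiv.sum_comp e.symm.toEquiv E
  · rw [← h.sumS]
    exact Equiv.sum_comp e.symm.toEquiv S
  · intro x hx h5
    apply h.ord
    · rw [Ne, EmbeddingLike.map_eq_zero_iff]
      exact hx
    · have h6 : addOrderOf (e.symm x) = addOrderOf x :=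
        addOrderOf_injective e.symm.toAddMonoidHom e.symm.injective x
      rw [h6]
      exact h5
  · rw [hcard]; exact h.odd
  · rw [hcard]; exact h.par

theorem five_arith (μ δ s N : ℤ) (n : ℕ) (hN : N = 5 ^ n) (h1 : 1 ≤ μ) (h2 : μ * μ < δ * δ)
    (hδN : δ ∣ N) (hδe : δ ∣ 2 * s + δ) (par : (2 * s + δ) * s = μ * N)
    (par2 : δ * δ = μ * μ + 8 * s + 2 * δ - 6 * μ) : μ = 1 ∧ s = 5 ∧ N = 25 := by
  obtain ⟨a, ha⟩ : ∃ a : ℕ, δ = 5 ^ a ∨ δ = -5 ^ a := by
    have h3 : δ.natAbs ∣ 5 ^ n := by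
      have h4 := Int.natAbs_dvd_natAbs.2 hδN
      rw [hN, Int.natAbs_pow] at h4
      exact h4
    obtain ⟨a, _, ha⟩ := (Nat.dvd_prime_pow Nat.prime_five).1 h3
    refine ⟨a, ?_⟩
    have h5 : (5 : ℤ) ^ a = (δ.natAbs : ℤ) := by rw [ha]; push_cast; rfl
    rw [h5]
    exact Int.natAbs_eq δ
  obtain ⟨m, hm⟩ : ∃ m : ℤ, m = 5 ^ a := ⟨_, rfl⟩
  rw [← hm] at ha
  have hmpos : 0 < m := by rw [hm]; positivity
  have hμm : μ < m := by
    have h3 : δ * δ = m * m := by rcases ha with h4 | h4 <;> rw [h4] <;> ring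
    rw [h3] at h2
    nlinarith
  have hmδ : m ∣ δ := by rcases ha with h4 | h4 <;> rw [h4]; exact (dvd_neg).2 (dvd_refl m)
  have hδ2s : δ ∣ 2 * s := by
    have h3 := dvd_sub hδe (dvd_refl δ)
    rwa [add_sub_cancel_right] at h3
  have hmm : m ∣ μ * (μ - 6) := by
    apply hmδ.trans
    have h3 : μ * (μ - 6) = δ * δ - 4 * (2 * s) - 2 * δ := by linear_combination -par2
    rw [h3]
    exact dvd_sub (dvd_sub (Dvd.intro _ rfl) (Dvd.dvd.mul_left hδ2s 4)) (Dvd.intro_left _ rfl)
  have hp5 : Prime (5 : ℤ) := by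
    have := Nat.prime_iff_prime_int.1 Nat.prime_five
    exact_mod_cast this
  have hcop : ∀ z : ℤ, ¬ (5 : ℤ) ∣ z → IsCoprime m z := by
    intro z hz
    rw [hm]
    exact IsCoprime.pow_left ((Prime.coprime_iff_not_dvd hp5).2 hz)
  have hmodd : m % 2 = 1 := by
    rw [hm]
    exact Int.odd_iff.1 (Odd.pow (by decide))
  by_cases h5 : (5 : ℤ) ∣ μ
  · exfalso
    have h6 : ¬ (5 : ℤ) ∣ μ - 6 := by omega
    have h7 := (hcop _ h6).dvd_of_dvd_mul_right hmm
    have h8 := Int.le_of_dvd (by omega) h7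
    omega
  · have h7 := (hcop _ h5).dvd_of_dvd_mul_left hmm
    have ha1 : a ≠ 0 := by
      rintro rfl
      rw [pow_zero] at hm
      omega
    have hm5 : 5 ≤ m := by
      rw [hm]
      have : (5 : ℤ) ^ 1 ≤ 5 ^ a := pow_le_pow_right₀ (by norm_num) (by omega)
      simpa using this
    rcases lt_trichotomy μ 6 with h8 | h8 | h8
    · have h9 : m ≤ 6 - μ := by
        apply Int.le_of_dvd (by omega)
        have h10 : 6 - μ = -(μ - 6) := by ring
        rw [h10]
        exact (dvd_neg).2 h7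
      have h10 : m = 5 := by omega
      have h11 : μ = 1 := by omega
      rw [h10] at ha
      rw [h11] at par par2
      rcases ha with h12 | h12
      · rw [h12] at par2; omega
      · rw [h12] at par par2
        have h13 : s = 5 := by omega
        rw [h13] at par
        exact ⟨h11, h13, by omega⟩
    · exfalso
      rw [h8] at par2
      obtain ⟨q, hq⟩ : ∃ q, m = 2 * q + 1 := ⟨m / 2, by omega⟩
      have h9 : 2 * (2 * (q * q) + 2 * q - 4 * s - δ) + 1 = 0 := by
        have h10 : δ * δ = m * m := by rcases ha with h4 | h4 <;> rw [h4] <;> ring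
        rw [hq] at h10
        linear_combination par2 - h10
      omega
    · exfalso
      have h9 := Int.le_of_dvd (by omega) h7
      omega

section
variable {A : Type*} [AddCommGroup A] [Fintype A] [DecidableEq A]

namespace BC
variable {C D S : A → ℤ} {k μ : ℤ} (h : BC C D S k μ)
include h

theorem toED : ED (EE C D μ) S μ (2 * (∑ x, C x - ∑ x, S x) + μ) (∑ x, S x) where
  zero := h.zero_E
  val := h.val_E
  char := fun χ hχ => h.char_E χ hχ
  sumE := by rw [h.sum_E]; ring
  sumS := rfl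
  ord := fun x hx h5 => h.ord_E x hx h5
  odd := h.odd
  mu1 := h.mu1
  mudel := by
    rw [h.delta_sq]
    have := h.muk
    linarith
  par := by
    have := h.p3
    linear_combination this
  par2 := by
    have h1 := h.delta_sq
    have h2 := h.sumCS
    linear_combination h1 - 4 * h2

theorem params : (Fintype.card A = 5 ∧ k = 3 ∧ μ = 1) ∨ (Fintype.card A = 25 ∧ k = 7 ∧ μ = 1) := by
  have hmu1 := h.mu1
  have hmuk := h.muk
  have hp1 := h.p1
  have hp3 := h.p3
  have hCS := h.sumCS
  have hN1 : (1 : ℤ) ≤ (Fintype.card A : ℤ) := by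
    have : 1 ≤ Fintype.card A := Fintype.card_pos
    exact_mod_cast this
  by_cases hall0 : ∀ x, x ≠ 0 → EE C D μ x = 0
  · exfalso
    have hc : ∑ x, C x = 0 := by
      apply Finset.sum_eq_zero
      intro x _
      by_cases hx : x = 0
      · rw [hx, h.C0]
      · have h1 := hall0 x hx
        rw [h.E_ne x hx] at h1
        rcases h.valC x with h2 | h2 <;> rcases h.valD x with h3 | h3 <;> omega
    rw [hc] at hp1 hp3 hCS
    have h1 : μ * ((Fintype.card A : ℤ) - ∑ x, S x) = 0 := by linear_combination -hp3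
    have h2 : ∑ x, S x = (Fintype.card A : ℤ) := by
      rcases mul_eq_zero.1 h1 with h3 | h3 <;> omega
    rw [h2] at hp1 hCS
    have h3 : ((Fintype.card A : ℤ) - 1) * ((Fintype.card A : ℤ) - μ) = 0 := by
      linear_combination hp1 - hCS
    rcases mul_eq_zero.1 h3 with h4 | h4 <;> omega
  push Not at hall0
  obtain ⟨g', hg'0, hg'⟩ := hall0
  have hg'1 : EE C D μ g' = 1 := (h.val_E g' hg'0).resolve_left hg'
  by_cases hall1 : ∀ x, x ≠ 0 → EE C D μ x = 1
  · left
    obtain ⟨χ, hχ⟩ : ∃ χ : AddChar A ℂ, χ ≠ 0 := by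
      by_contra hcon
      push Not at hcon
      have h1 : ∑ χ : AddChar A ℂ, χ g' = 0 := by
        rw [AddChar.sum_apply_eq_ite, if_neg hg'0]
      have h2 : ∀ χ : AddChar A ℂ, χ g' = 1 := fun χ => by rw [hcon χ]; simp
      rw [Finset.sum_congr rfl fun χ _ => h2 χ, Finset.sum_const, nsmul_eq_mul, mul_one,
        Finset.card_univ] at h1
      exact absurd h1 (Nat.cast_ne_zero.2 Fintype.card_ne_zero)
    have h1 : ft (EE C D μ) χ = ((μ - 1 : ℤ) : ℂ) := by
      unfold ft
      have h2 : ∑ x, χ x = 0 := AddChar.sum_eq_zero_iff_ne_zero.2 hχ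
      rw [← Finset.add_sum_erase _ _ (Finset.mem_univ (0 : A)), AddChar.map_zero_eq_one] at h2
      rw [← Finset.add_sum_erase _ _ (Finset.mem_univ (0 : A)), AddChar.map_zero_eq_one,
        h.zero_E]
      have h3 : ∑ x ∈ (univ : Finset A).erase 0, (EE C D μ x : ℂ) * χ x =
          ∑ x ∈ (univ : Finset A).erase 0, χ x := by
        refine Finset.sum_congr rfl fun x hx => ?_
        rw [hall1 x (Finset.ne_of_mem_erase hx)]
        push_cast
        ring
      rw [h3]
      push_cast
      linear_combination h2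
    have hED := h.toED
    have hmd := hED.mudel
    have hμ1 : μ = 1 := by
      rcases hED.char χ hχ with h2 | ⟨_, h2 | h2⟩
      · rw [h1] at h2
        have h3 : μ - 1 = 0 := by exact_mod_cast h2
        omega
      · exfalso
        rw [h1] at h2
        have h3 := Int.cast_injective (α := ℂ) h2
        rw [← h3] at hmd
        nlinarith
      · exfalso
        rw [h1] at h2
        have h3 : μ - 1 = -(2 * (∑ x, C x - ∑ x, S x) + μ) := by
          apply Int.cast_injective (α := ℂ)
          rw [h2, Int.cast_neg]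
        have h4 : 2 * (∑ x, C x - ∑ x, S x) + μ = -(μ - 1) := by linarith
        rw [h4] at hmd
        nlinarith
    have hsum := h.sum_E
    have h2 : ∑ x, EE C D μ x = μ + ((Fintype.card A : ℤ) - 1) := by
      rw [← Finset.add_sum_erase _ _ (Finset.mem_univ (0 : A)), h.zero_E,
        Finset.sum_congr rfl fun x hx => hall1 x (Finset.ne_of_mem_erase hx), Finset.sum_const,
        Finset.card_erase_of_mem (Finset.mem_univ _), Finset.card_univ, nsmul_eq_mul, mul_one,
        Nat.cast_sub Fintype.card_pos]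
      push_cast
      ring
    rw [h2, hμ1] at hsum
    rw [hμ1] at hp1 hp3
    have hNg : 1 < Fintype.card A := Fintype.one_lt_card_iff.2 ⟨g', 0, hg'0⟩
    have hNg' : (1 : ℤ) < (Fintype.card A : ℤ) := by exact_mod_cast hNg
    set c : ℤ := ∑ x, C x with hc
    set s : ℤ := ∑ x, S x with hs
    set N : ℤ := (Fintype.card A : ℤ) with hN
    have hN2 : N = 2 * c + 1 := by linarith
    have hs1 : s = 1 := by
      have h3 : N * (s - 1) = 0 := by
        rw [hN2] at hp3 ⊢
        linear_combination hp3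
      rcases mul_eq_zero.1 h3 with h4 | h4 <;> omega
    rw [hs1] at hp1 hCS
    have h3 : c * (c - 2) = 0 := by
      rw [hN2] at hp1
      linear_combination hp1 - hCS
    have hc2 : c = 2 := by
      rcases mul_eq_zero.1 h3 with h4 | h4 <;> omega
    refine ⟨?_, by omega, hμ1⟩
    have h5 : N = 5 := by rw [hN2, hc2]; norm_num
    rw [hN] at h5
    exact_mod_cast h5
  push Not at hall1
  obtain ⟨g, hg0, hg1⟩ := hall1
  have hg : EE C D μ g = 0 := (h.val_E g hg0).resolve_right hg1
  right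
  have hED := h.toED
  have hδe := hED.dvd_e hg
  have hδN := hED.dvd_N hg hg'1
  classical
  obtain ⟨T, H, _, _, _, _, n, ⟨e⟩, hT, hH⟩ := exists_decomp5 A
  have hcard : Fintype.card (T × H) = Fintype.card A := (Fintype.card_congr e.toEquiv).symm
  have hED' := hED.equiv e
  have hH1 : Fintype.card H = 1 := by
    by_contra hcon
    have h1 : 1 < Fintype.card H := by
      have : 0 < Fintype.card H := Fintype.card_pos
      omega
    obtain ⟨y, y', hyy⟩ := Fintype.one_lt_card_iff.1 h1
    exact hED'.main n hT hH (by rw [hcard]; exact hδN) (y - y') (sub_ne_zero.2 hyy)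
  have hN : (Fintype.card A : ℤ) = 5 ^ n := by
    rw [← hcard, Fintype.card_prod, hH1, hT]
    push_cast
    ring
  obtain ⟨h1, h2, h3⟩ := five_arith μ _ _ _ n hN hED.mu1 hED.mudel hδN hδe hED.par hED.par2
  refine ⟨by exact_mod_cast h3, ?_, h1⟩
  rw [h1, h2, h3] at hp3
  rw [h2] at hCS
  omega

end BC

end

end Pool.Agent.OBC
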