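import Pool.Agent.TFA.Prod
import Pool.Agent.OBC.Eqs

set_option autoImplicit false
set_option linter.unusedSectionVars false

/-! The rational element `μ + C + D`: divisibility and the final argument. -/

noncomputable section

namespace Pool.Agent.OBC

open Finset ComplexConjugate Pool.Agent.TFA

section
variable {A : Type*} [AddCommGroup A] [Fintype A] [DecidableEq A]

/-- the data used in the final argument -/
structure ED (E S : A → ℤ) (μ δ s : ℤ) : Prop where
  zero : E 0 = μ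
  val : ∀ x, x ≠ 0 → E x = 0 ∨ E x = 1
  char : ∀ χ : AddChar A ℂ, χ ≠ 0 →
    ft E χ = 0 ∨ (ft S χ = 0 ∧ (ft E χ = (δ : ℂ) ∨ ft E χ = -(δ : ℂ)))
  sumE : ∑ x, E x = 2 * s + δ
  sumS : ∑ x, S x = s
  ord : ∀ x, x ≠ 0 → ¬ 5 ∣ addOrderOf x → E x = 0
  odd : Odd (Fintype.card A)
  mu1 : 1 ≤ μ
  mudel : μ * μ < δ * δ
  par : (2 * s + δ) * s = μ * (Fintype.card A : ℤ)
  par2 : δ * δ = μ * μ + 8 * s + 2 * δ - 6 * μ

namespace ED
variable {E S : A → ℤ} {μ δ s : ℤ} (h : ED E S μ δ s)
include h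

theorem del_ne : δ ≠ 0 := by
  intro h0
  have h1 := h.mudel
  rw [h0] at h1
  nlinarith

theorem eps (χ : AddChar A ℂ) : ∃ ε : ℤ, χ ≠ 0 → ft E χ = ((δ * ε : ℤ) : ℂ) := by
  by_cases hχ : χ = 0
  · exact ⟨0, fun h => absurd hχ h⟩
  · rcases h.char χ hχ with h1 | ⟨_, h1 | h1⟩
    · exact ⟨0, fun _ => by rw [h1]; simp⟩
    · exact ⟨1, fun _ => by rw [h1]; simp⟩
    · exact ⟨-1, fun _ => by rw [h1]; simp⟩

theorem ft_int (χ : AddChar A ℂ) : ∃ s : ℤ, ft E χ = (s : ℂ) := by
  by_cases hχ : χ = 0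
  · subst hχ
    exact ⟨_, ft_zero _⟩
  · obtain ⟨ε, hε⟩ := h.eps χ
    exact ⟨_, hε hχ⟩

theorem dvd_sub (g : A) : δ ∣ (Fintype.card A : ℤ) * E g - (2 * s + δ) := by
  choose ε hε using h.eps
  have h1 := ft_inv E g
  rw [← Finset.add_sum_erase _ _ (Finset.mem_univ (0 : AddChar A ℂ)), ft_zero, h.sumE,
    AddChar.zero_apply, mul_one] at h1
  have h3 : ∑ χ ∈ (univ : Finset (AddChar A ℂ)).erase 0, ft E χ * χ (-g) =
      (δ : ℂ) * ∑ χ ∈ (univ : Finset (AddChar A ℂ)).erase 0, (ε χ : ℂ) * χ (-g) := by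
    rw [Finset.mul_sum]
    refine Finset.sum_congr rfl fun χ hχ => ?_
    rw [hε χ (Finset.ne_of_mem_erase hχ)]
    push_cast
    ring
  have h4 : IsIntegral ℤ (∑ χ ∈ (univ : Finset (AddChar A ℂ)).erase 0, (ε χ : ℂ) * χ (-g)) := by
    apply IsIntegral.sum
    intro χ _
    apply IsIntegral.mul
    · exact isIntegral_algebraMap (R := ℤ) (A := ℂ) (x := ε χ)
    · exact char_integral χ _
  have h5 : (δ : ℂ) * ∑ χ ∈ (univ : Finset (AddChar A ℂ)).erase 0, (ε χ : ℂ) * χ (-g) =
      (((Fintype.card A : ℤ) * E g - (2 * s + δ) : ℤ) : ℂ) := by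
    rw [← h3]
    push_cast
    push_cast at h1
    linear_combination h1
  obtain ⟨w, hw⟩ := int_of_integral _ h4 _ _ h.del_ne h5
  rw [hw] at h5
  refine ⟨w, ?_⟩
  have : ((δ * w : ℤ) : ℂ) = (((Fintype.card A : ℤ) * E g - (2 * s + δ) : ℤ) : ℂ) := by
    rw [Int.cast_mul]; exact h5
  exact (Int.cast_injective this).symm

theorem dvd_e {g : A} (hg : E g = 0) : δ ∣ 2 * s + δ := by
  have h1 := h.dvd_sub g
  rw [hg, mul_zero, zero_sub] at h1
  exact (dvd_neg).1 h1

theorem dvd_N {g g' : A} (hg : E g = 0) (hg' : E g' = 1) : δ ∣ (Fintype.card A : ℤ) := by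
  have h1 := h.dvd_sub g'
  have h2 := h.dvd_e hg
  rw [hg', mul_one] at h1
  have h3 := dvd_add h1 h2
  rwa [sub_add_cancel] at h3

end ED

end

/-- a finite set of nonzero elements closed under a square root of `-1` has `4 ∣ card` -/
theorem four_dvd_card {T : Type*} [AddCommGroup T] [DecidableEq T] (σ : T → T)
    (hσ : ∀ a, σ (σ a) = -a) (hneg : ∀ a : T, a ≠ 0 → -a ≠ a) (P : Finset T) :
    (∀ a ∈ P, a ≠ 0) → (∀ a ∈ P, σ a ∈ P) → 4 ∣ P.card := by
  induction P using Finset.strongInduction with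
  | H P ih =>
    intro h0 hP
    rcases P.eq_empty_or_nonempty with h1 | ⟨a, ha⟩
    · rw [h1]; simp
    have hσn : ∀ x, σ (-x) = - σ x := by
      intro x
      rw [← hσ x, hσ (σ x)]
    have hinj : ∀ x y, σ x = σ y → x = y := by
      intro x y hxy
      have h2 := hσ x
      rw [hxy, hσ y] at h2
      exact (neg_injective h2).symm
    have ha0 := h0 a ha
    have hma : -a ≠ a := hneg a ha0
    have hs1 : σ a ≠ a := by
      intro h2
      apply hma
      rw [← hσ a, h2, h2]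
    have hs2 : σ a ≠ -a := by
      intro h2
      apply hma
      rw [← hσ a, h2, hσn, h2, neg_neg]
    have hs3 : -σ a ≠ a := fun h2 => hs2 (neg_eq_iff_eq_neg.1 h2)
    have hs4 : -σ a ≠ -a := fun h2 => hs1 (neg_injective h2)
    have hs5 : -σ a ≠ σ a := hneg _ (h0 _ (hP a ha))
    let Q : Finset T := {a, -a, σ a, -σ a}
    have hQmem : ∀ x, x ∈ Q ↔ x = a ∨ x = -a ∨ x = σ a ∨ x = -σ a := by
      intro x
      simp [Q]
    have hQcard : Q.card = 4 := by
      show ({a, -a, σ a, -σ a} : Finset T).card = 4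
      rw [Finset.card_insert_of_notMem, Finset.card_insert_of_notMem,
        Finset.card_insert_of_notMem, Finset.card_singleton]
      · rw [Finset.mem_singleton]; exact fun h2 => hs5 h2.symm
      · rw [Finset.mem_insert, Finset.mem_singleton]
        rintro (h2 | h2)
        · exact hs2 h2.symm
        · exact hs4 h2.symm
      · rw [Finset.mem_insert, Finset.mem_insert, Finset.mem_singleton]
        rintro (h2 | h2 | h2)
        · exact hma h2.symm
        · exact hs1 h2.symm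
        · exact hs3 h2.symm
    have hQP : Q ⊆ P := by
      intro x hx
      rw [hQmem] at hx
      rcases hx with rfl | rfl | rfl | rfl
      · exact ha
      · rw [← hσ]; exact hP _ (hP _ ha)
      · exact hP _ ha
      · rw [← hσ]; exact hP _ (hP _ (hP _ ha))
    have hsub : P \ Q ⊂ P := by
      refine ⟨Finset.sdiff_subset, fun hcon => ?_⟩
      have h2 := hcon ha
      rw [Finset.mem_sdiff, hQmem] at h2
      exact h2.2 (Or.inl rfl)
    have h3 := ih (P \ Q) hsub (fun x hx => h0 x (Finset.mem_sdiff.1 hx).1) (by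
      intro x hx
      rw [Finset.mem_sdiff] at hx ⊢
      refine ⟨hP x hx.1, fun h4 => hx.2 ?_⟩
      rw [hQmem] at h4 ⊢
      rcases h4 with h4 | h4 | h4 | h4
      · right; right; right
        rw [← h4, hσ, neg_neg]
      · right; right; left
        have : σ (σ x) = σ (-a) := by rw [h4]
        rw [hσ, hσn] at this
        exact neg_injective this
      · left; exact hinj _ _ h4
      · right; left
        apply hinj
        rw [h4, hσn])
    rw [Finset.card_sdiff_of_subset hQP, hQcard] at h3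
    have h5 : 4 ≤ P.card := by rw [← hQcard]; exact Finset.card_le_card hQP
    omega

section
variable {T H : Type*} [AddCommGroup T] [Fintype T] [DecidableEq T] [AddCommGroup H] [Fintype H]
  [DecidableEq H]

theorem chi_ne_zero' (η : AddChar T ℂ) (ψ : AddChar H ℂ) (hψ : ψ ≠ 0) : chi η ψ ≠ 0 := by
  rw [AddChar.ne_zero_iff] at hψ ⊢
  obtain ⟨x, hx⟩ := hψ
  refine ⟨(0, x), ?_⟩
  rw [chi_apply, AddChar.map_zero_eq_one, one_mul]
  exact hx

theorem ft_snd (D : T × H → ℤ) (ψ : AddChar H ℂ) :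
    ft (fun y => ∑ x, D (x, y)) ψ = ft D (chi 0 ψ) := by
  rw [ft_chi, Finset.sum_comm]
  unfold ft
  refine Finset.sum_congr rfl fun y _ => ?_
  push_cast
  rw [Finset.sum_mul]
  refine Finset.sum_congr rfl fun x _ => ?_
  simp

/-- partial Fourier inversion in the first variable -/
theorem inv_fst (D : T × H → ℤ) (ψ : AddChar H ℂ) (a : T) :
    ∑ η : AddChar T ℂ, ft D (chi η ψ) * η (-a) =
      (Fintype.card T : ℂ) * ft (fun y => D (a, y)) ψ := by
  have h1 : ∀ η : AddChar T ℂ, ft D (chi η ψ) * η (-a) =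
      ∑ x : T, (∑ y : H, (D (x, y) : ℂ) * ψ y) * η (x - a) := by
    intro η
    rw [ft_chi, Finset.sum_mul]
    refine Finset.sum_congr rfl fun x _ => ?_
    rw [Finset.sum_mul, Finset.sum_mul]
    refine Finset.sum_congr rfl fun y _ => ?_
    rw [sub_eq_add_neg, AddChar.map_add_eq_mul]
    ring
  rw [Finset.sum_congr rfl fun η _ => h1 η, Finset.sum_comm]
  have h2 : ∀ x : T, ∑ η : AddChar T ℂ, (∑ y : H, (D (x, y) : ℂ) * ψ y) * η (x - a) =
      if x = a then (∑ y : H, (D (x, y) : ℂ) * ψ y) * (Fintype.card T : ℂ) else 0 := by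
    intro x
    rw [← Finset.mul_sum, AddChar.sum_apply_eq_ite]
    by_cases hx : x = a
    · rw [if_pos hx, if_pos (by rw [hx, sub_self])]
    · rw [if_neg hx, if_neg (by intro h'; exact hx (sub_eq_zero.1 h')), mul_zero]
  rw [Finset.sum_congr rfl fun x _ => h2 x, Finset.sum_ite_eq' Finset.univ a,
    if_pos (Finset.mem_univ a), mul_comm]
  rfl

/-- Parseval -/
theorem parseval_neg (f : H → ℤ) :
    ∑ ψ : AddChar H ℂ, ft f ψ * ft f (-ψ) = (Fintype.card H : ℂ) * ∑ y, (f y : ℂ) * f y := by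
  have h1 : ∀ ψ : AddChar H ℂ, ft f ψ * ft f (-ψ) = ∑ y, (f y : ℂ) * (ft f ψ * ψ (-y)) := by
    intro ψ
    unfold ft
    rw [Finset.mul_sum]
    refine Finset.sum_congr rfl fun y _ => ?_
    rw [AddChar.neg_apply]
    ring
  rw [Finset.sum_congr rfl fun ψ _ => h1 ψ, Finset.sum_comm, Finset.mul_sum]
  refine Finset.sum_congr rfl fun y _ => ?_
  rw [← Finset.mul_sum, ft_inv]
  ring

end

end Pool.Agent.OBC
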