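import Pool.Agent.OBC.Final

set_option autoImplicit false
set_option linter.unusedSectionVars false

/-! From a graph with a semiregular group of automorphisms with two orbits to connection sets. -/

noncomputable section

namespace Pool.Agent.OBC

open Finset Pool.Agent.TFA

section
variable {V : Type*} [Fintype V] [DecidableEq V] (Γ : SimpleGraph V) [DecidableRel Γ.Adj]

/-- adjacency as an integer -/
def adjn (u v : V) : ℤ := if Γ.Adj u v then 1 else 0

theorem adjn_val (u v : V) : adjn Γ u v = 0 ∨ adjn Γ u v = 1 := by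
  unfold adjn
  split_ifs
  · exact Or.inr rfl
  · exact Or.inl rfl

theorem adjn_comm (u v : V) : adjn Γ u v = adjn Γ v u := by
  unfold adjn
  rw [if_congr (Γ.adj_comm u v) rfl rfl]

theorem adjn_self (u : V) : adjn Γ u u = 0 := if_neg (Γ.loopless.irrefl u)

theorem sum_adjn {n k μ : ℕ} (hsrg : Γ.IsSRGWith n k 0 μ) (u w : V) :
    ∑ v, adjn Γ u v * adjn Γ w v = if u = w then (k : ℤ) else (μ : ℤ) * (1 - adjn Γ u w) := by
  by_cases hg : u = w
  · rw [if_pos hg, hg]
    have h3 : ∀ y, adjn Γ w y * adjn Γ w y = if Γ.Adj w y then 1 else 0 := by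
      intro y
      show (if Γ.Adj w y then (1 : ℤ) else 0) * (if Γ.Adj w y then (1 : ℤ) else 0) = _
      split_ifs <;> norm_num
    rw [Finset.sum_congr rfl fun y _ => h3 y, Finset.sum_boole]
    have h4 := hsrg.regular w
    rw [← h4, ← Γ.card_neighborFinset_eq_degree, Γ.neighborFinset_eq_filter]
  · rw [if_neg hg]
    have h3 : ∀ y, adjn Γ u y * adjn Γ w y = if y ∈ Γ.commonNeighbors u w then 1 else 0 := by
      intro y
      have h5 : y ∈ Γ.commonNeighbors u w ↔ Γ.Adj u y ∧ Γ.Adj w y :=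
        SimpleGraph.mem_commonNeighbors Γ
      rw [if_congr h5 rfl rfl]
      show (if Γ.Adj u y then (1 : ℤ) else 0) * (if Γ.Adj w y then (1 : ℤ) else 0) = _
      by_cases h6 : Γ.Adj u y <;> by_cases h7 : Γ.Adj w y <;> simp [h6, h7]
    rw [Finset.sum_congr rfl fun y _ => h3 y, Finset.sum_boole]
    have h6 : ((Finset.univ.filter fun y => y ∈ Γ.commonNeighbors u w).card : ℤ) =
        (Fintype.card (Γ.commonNeighbors u w) : ℤ) := by
      rw [Fintype.card_subtype]
    rw [h6]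
    by_cases h7 : Γ.Adj u w
    · rw [hsrg.of_adj u w h7]
      show _ = (μ : ℤ) * (1 - (if Γ.Adj u w then (1 : ℤ) else 0))
      rw [if_pos h7]
      simp
    · rw [hsrg.of_not_adj hg h7]
      show _ = (μ : ℤ) * (1 - (if Γ.Adj u w then (1 : ℤ) else 0))
      rw [if_neg h7]
      simp

variable {A : Type*} [AddCommGroup A] [Fintype A] [DecidableEq A] [AddAction A V]

theorem params_graph {n k μ : ℕ} (hsrg : Γ.IsSRGWith n k 0 μ) (h1 : 1 ≤ μ) (h2 : μ < k)
    (hodd : Odd (Fintype.card A)) (htrans : ∀ (a : A) (x y : V), Γ.Adj x y → Γ.Adj (a +ᵥ x) (a +ᵥ y))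
    (hfree : ∀ (a : A) (x : V), a +ᵥ x = x → a = 0)
    (hcard : Fintype.card V = 2 * Fintype.card A) :
    (n = 10 ∧ k = 3 ∧ μ = 1) ∨ (n = 50 ∧ k = 7 ∧ μ = 1) := by
  have hadj : ∀ (a : A) (x y : V), adjn Γ (a +ᵥ x) (a +ᵥ y) = adjn Γ x y := by
    intro a x y
    have : Γ.Adj (a +ᵥ x) (a +ᵥ y) ↔ Γ.Adj x y := by
      constructor
      · intro h
        have h3 := htrans (-a) _ _ h
        rwa [neg_vadd_vadd, neg_vadd_vadd] at h3
      · exact htrans a x y
    unfold adjn
    rw [if_congr this rfl rfl]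
  have hApos : 0 < Fintype.card A := Fintype.card_pos
  have hV : 0 < Fintype.card V := by omega
  obtain ⟨v0⟩ : Nonempty V := Fintype.card_pos_iff.1 hV
  have hinj : ∀ v : V, Function.Injective (fun a : A => a +ᵥ v) := by
    intro v a b hab
    have h3 : (-b + a) +ᵥ v = v := by
      rw [add_vadd]
      show -b +ᵥ ((fun a : A => a +ᵥ v) a) = v
      rw [hab]
      exact neg_vadd_vadd b v
    have h4 := hfree _ _ h3
    have h5 : a = b + (-b + a) := by abel
    rw [h5, h4, add_zero]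
  obtain ⟨v1, hv1⟩ : ∃ v1 : V, ∀ a : A, a +ᵥ v0 ≠ v1 := by
    by_contra hcon
    push Not at hcon
    have hsurj : Function.Surjective (fun a : A => a +ᵥ v0) := hcon
    have := Fintype.card_le_of_surjective _ hsurj
    omega
  have hne : ∀ a b : A, a +ᵥ v0 ≠ b +ᵥ v1 := by
    intro a b hab
    apply hv1 (-b + a)
    rw [add_vadd, hab]
    exact neg_vadd_vadd b v1
  let φ : A ⊕ A → V := Sum.elim (fun a => a +ᵥ v0) (fun a => a +ᵥ v1)
  have hφinj : Function.Injective φ := by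
    rintro (a | a) (b | b) hab
    · exact congrArg Sum.inl (hinj v0 hab)
    · exact absurd hab (hne a b)
    · exact absurd hab.symm (hne b a)
    · exact congrArg Sum.inr (hinj v1 hab)
  have hφ : Function.Bijective φ := by
    rw [Fintype.bijective_iff_injective_and_card]
    refine ⟨hφinj, ?_⟩
    rw [Fintype.card_sum, hcard]
    ring
  have hsum : ∀ F : V → ℤ, ∑ v, F v = ∑ a : A, F (a +ᵥ v0) + ∑ a : A, F (a +ᵥ v1) := by
    intro F
    rw [← Equiv.sum_comp (Equiv.ofBijective φ hφ), Fintype.sum_sum_type]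
    rfl
  let C : A → ℤ := fun a => adjn Γ v0 (a +ᵥ v0)
  let D : A → ℤ := fun a => adjn Γ v1 (a +ᵥ v1)
  let S : A → ℤ := fun a => adjn Γ v0 (a +ᵥ v1)
  have hsub : ∀ (a b : A) (u w : V), adjn Γ (a +ᵥ u) (b +ᵥ w) = adjn Γ u ((b - a) +ᵥ w) := by
    intro a b u w
    rw [← hadj (-a), neg_vadd_vadd, ← add_vadd]
    congr 2
    abel
  have hBC : BC C D S (k : ℤ) (μ : ℤ) := by
    refine ⟨fun x => adjn_val Γ _ _, fun x => adjn_val Γ _ _, fun x => adjn_val Γ _ _, ?_, ?_, ?_, ?_,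
      ?_, ?_, ?_, by exact_mod_cast h1, by exact_mod_cast h2, hodd⟩
    · show adjn Γ v0 ((0 : A) +ᵥ v0) = 0
      rw [zero_vadd]; exact adjn_self Γ v0
    · show adjn Γ v1 ((0 : A) +ᵥ v1) = 0
      rw [zero_vadd]; exact adjn_self Γ v1
    · intro x
      show adjn Γ v0 ((-x) +ᵥ v0) = adjn Γ v0 (x +ᵥ v0)
      rw [← hadj x, vadd_neg_vadd, adjn_comm]
    · intro x
      show adjn Γ v1 ((-x) +ᵥ v1) = adjn Γ v1 (x +ᵥ v1)
      rw [← hadj x, vadd_neg_vadd, adjn_comm]
    · intro x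
      have h3 := sum_adjn Γ hsrg v0 (x +ᵥ v0)
      rw [hsum] at h3
      have h4 : (v0 = x +ᵥ v0) ↔ x = 0 := by
        constructor
        · intro h5; exact hfree x v0 h5.symm
        · intro h5; rw [h5, zero_vadd]
      rw [if_congr h4 rfl rfl] at h3
      rw [← h3]
      unfold conv
      congr 1
      · refine Finset.sum_congr rfl fun y _ => ?_
        show adjn Γ v0 (y +ᵥ v0) * adjn Γ v0 ((x - y) +ᵥ v0) = _
        rw [adjn_comm Γ (x +ᵥ v0) (y +ᵥ v0), hsub]
      · refine Finset.sum_congr rfl fun y _ => ?_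
        show adjn Γ v0 (y +ᵥ v1) * adjn Γ v0 ((-(x - y)) +ᵥ v1) = _
        rw [hsub, neg_sub]
    · intro x
      have h3 := sum_adjn Γ hsrg v1 (x +ᵥ v1)
      rw [hsum] at h3
      have h4 : (v1 = x +ᵥ v1) ↔ x = 0 := by
        constructor
        · intro h5; exact hfree x v1 h5.symm
        · intro h5; rw [h5, zero_vadd]
      rw [if_congr h4 rfl rfl] at h3
      rw [← h3, add_comm]
      unfold conv
      congr 1
      · refine Finset.sum_congr rfl fun y _ => ?_
        show adjn Γ v0 ((-y) +ᵥ v1) * adjn Γ v0 ((x - y) +ᵥ v1) = _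
        rw [adjn_comm Γ (x +ᵥ v1) (y +ᵥ v0), hsub, adjn_comm Γ v1 (y +ᵥ v0)]
        congr 1
        rw [← hadj y, vadd_neg_vadd]
      · refine Finset.sum_congr rfl fun y _ => ?_
        show adjn Γ v1 (y +ᵥ v1) * adjn Γ v1 ((x - y) +ᵥ v1) = _
        rw [adjn_comm Γ (x +ᵥ v1) (y +ᵥ v1), hsub]
    · intro x
      have h3 := sum_adjn Γ hsrg v0 (x +ᵥ v1)
      have h4 : v0 ≠ x +ᵥ v1 := by
        have := hne 0 x
        rwa [zero_vadd] at this
      rw [hsum, if_neg h4] at h3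
      show _ = (μ : ℤ) * (1 - adjn Γ v0 (x +ᵥ v1))
      rw [← h3, add_comm]
      unfold conv
      congr 1
      · refine Finset.sum_congr rfl fun y _ => ?_
        show adjn Γ v0 (y +ᵥ v0) * adjn Γ v0 ((x - y) +ᵥ v1) = _
        rw [adjn_comm Γ (x +ᵥ v1) (y +ᵥ v0), hsub]
      · refine Finset.sum_congr rfl fun y _ => ?_
        show adjn Γ v0 (y +ᵥ v1) * adjn Γ v1 ((x - y) +ᵥ v1) = _
        rw [adjn_comm Γ (x +ᵥ v1) (y +ᵥ v1), hsub]
  have hn := hsrg.card
  rcases hBC.params with ⟨h3, h4, h5⟩ | ⟨h3, h4, h5⟩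
  · left
    exact ⟨by rw [← hn, hcard, h3], by exact_mod_cast h4, by exact_mod_cast h5⟩
  · right
    exact ⟨by rw [← hn, hcard, h3], by exact_mod_cast h4, by exact_mod_cast h5⟩

end

end Pool.Agent.OBC
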