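import Pool.Agent.OBC.Five

set_option autoImplicit false
set_option linter.unusedSectionVars false

/-! The group `T × H` with `|T|` a power of five and `|H|` prime to five. -/

noncomputable section

namespace Pool.Agent.OBC

open Finset ComplexConjugate Pool.Agent.TFA

section
variable {T H : Type*} [AddCommGroup T] [Fintype T] [DecidableEq T] [AddCommGroup H] [Fintype H]
  [DecidableEq H]

namespace ED
variable {E S : T × H → ℤ} {μ δ s : ℤ} (h : ED E S μ δ s) (n : ℕ)
  (hT : Fintype.card T = 5 ^ n) (hH : ¬ 5 ∣ Fintype.card H)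
include h hT hH

theorem coprime_TH : (Fintype.card T).Coprime (Fintype.card H) := by
  rw [hT]
  exact Nat.Coprime.pow_left n ((Nat.Prime.coprime_iff_not_dvd Nat.prime_five).2 hH)

theorem mult_fst (t : ℕ) (ht : t.Coprime 5) (x : T) (y : H) : E (t • x, y) = E (x, y) := by
  have hco := h.coprime_TH n hT hH
  obtain ⟨t', ht1, ht2⟩ := Nat.chineseRemainder hco t 1
  have hc1 : (Fintype.card T).Coprime t' := by
    rw [Nat.coprime_comm]
    unfold Nat.Coprime
    rw [Nat.ModEq.gcd_eq ht1, hT]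
    exact Nat.Coprime.pow_right n ht
  have hc2 : (Fintype.card H).Coprime t' := by
    rw [Nat.coprime_comm]
    unfold Nat.Coprime
    rw [Nat.ModEq.gcd_eq ht2]
    exact Nat.gcd_one_left _
  have hc : (Fintype.card (T × H)).Coprime t' := by
    rw [Fintype.card_prod]
    exact Nat.Coprime.mul_left hc1 hc2
  have h1 := multiplier E h.ft_int t' hc (x, y)
  rw [← h1, Prod.smul_mk, nsmul_modEq t' t ht1 x, nsmul_modEq t' 1 ht2 y, one_nsmul]

theorem zeroH (y : H) (hy : y ≠ 0) : E (0, y) = 0 := by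
  apply h.ord
  · intro h1
    exact hy (congrArg Prod.snd h1)
  · intro h5
    apply hH
    refine h5.trans (addOrderOf_dvd_of_nsmul_eq_zero ?_)
    rw [Prod.smul_mk, smul_zero, card_nsmul_eq_zero]
    rfl

theorem oddT : Odd (Fintype.card T) := by
  rw [hT]
  exact Odd.pow (by decide)

theorem oddH : Odd (Fintype.card H) := by
  have h1 := h.odd
  rw [Fintype.card_prod] at h1
  exact (Nat.odd_mul.1 h1).2

theorem four (y : H) : (4 : ℤ) ∣ ∑ x, E (x, y) - E (0, y) := by
  rw [← Finset.add_sum_erase _ _ (Finset.mem_univ (0 : T)), add_sub_cancel_left]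
  let P : Finset T := (univ : Finset T).filter fun x => x ≠ 0 ∧ E (x, y) = 1
  have hPm : ∀ x, x ∈ P ↔ x ≠ 0 ∧ E (x, y) = 1 := fun x => by simp [P]
  have hsum : ∑ x ∈ (univ : Finset T).erase 0, E (x, y) = (P.card : ℤ) := by
    have h1 : ∀ x ∈ (univ : Finset T).erase 0, E (x, y) = if E (x, y) = 1 then 1 else 0 := by
      intro x hx
      have hx0 := Finset.ne_of_mem_erase hx
      rcases h.val (x, y) (fun h2 => hx0 (congrArg Prod.fst h2)) with h2 | h2
      · rw [h2]; norm_num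
      · rw [h2]; norm_num
    rw [Finset.sum_congr rfl h1, Finset.sum_boole]
    congr 2
    ext x
    rw [Finset.mem_filter, Finset.mem_erase, hPm]
    constructor
    · rintro ⟨⟨h2, _⟩, h3⟩; exact ⟨h2, h3⟩
    · rintro ⟨h2, h3⟩; exact ⟨⟨h2, Finset.mem_univ _⟩, h3⟩
  rw [hsum]
  have hneg : ∀ a : T, a ≠ 0 → -a ≠ a := by
    intro a ha h1
    apply ha
    have h2 : (2 : ℕ) • a = 0 := by
      rw [two_nsmul]
      nth_rewrite 1 [← h1]
      exact neg_add_cancel a
    have h3 := addOrderOf_dvd_of_nsmul_eq_zero h2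
    have h4 : addOrderOf a ∣ Fintype.card T := addOrderOf_dvd_card
    have h5 := Nat.Coprime.gcd_eq_one ((Nat.coprime_two_left).2 (h.oddT n hT hH))
    have h6 : addOrderOf a ∣ 1 := by rw [← h5]; exact Nat.dvd_gcd h3 h4
    exact AddMonoid.addOrderOf_eq_one_iff.1 (Nat.dvd_one.1 h6)
  have hu : Nat.Coprime (2 ^ 5 ^ n) 5 := Nat.Coprime.pow_left _ (by decide)
  have hdiv : (5 ^ n : ℕ) ∣ 2 ^ 5 ^ n * 2 ^ 5 ^ n + 1 := by
    have h4 : (((5 : ℕ) : ℤ)) ^ (n + 1) ∣ (4 : ℤ) ^ 5 ^ n - (-1) ^ 5 ^ n :=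
      dvd_sub_pow_of_dvd_sub (R := ℤ) (p := 5) (a := 4) (b := -1) (by norm_num) n
    have h5 : ((-1 : ℤ)) ^ 5 ^ n = -1 := Odd.neg_one_pow (Odd.pow (by decide))
    rw [h5, sub_neg_eq_add] at h4
    have h6 : (((5 ^ n : ℕ)) : ℤ) ∣ ((2 ^ 5 ^ n * 2 ^ 5 ^ n + 1 : ℕ) : ℤ) := by
      push_cast
      rw [← mul_pow]
      push_cast at h4
      norm_num
      exact (pow_dvd_pow 5 (Nat.le_succ n)).trans h4
    exact_mod_cast h6
  have key := four_dvd_card (fun a : T => (2 ^ 5 ^ n) • a) (by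
    intro a
    show (2 ^ 5 ^ n) • ((2 ^ 5 ^ n) • a) = -a
    rw [smul_smul, eq_neg_iff_add_eq_zero]
    nth_rewrite 2 [← one_nsmul a]
    rw [← add_nsmul]
    obtain ⟨q, hq⟩ := hdiv
    rw [hq, mul_comm, mul_nsmul', ← hT, card_nsmul_eq_zero, nsmul_zero]) hneg P
    (fun a ha => ((hPm a).1 ha).1) (by
    intro a ha
    rw [hPm] at ha ⊢
    refine ⟨?_, ?_⟩
    · intro h1
      apply ha.1
      have h2 := addOrderOf_dvd_of_nsmul_eq_zero h1
      have h3 : addOrderOf a ∣ Fintype.card T := addOrderOf_dvd_card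
      have h4 : Nat.Coprime (2 ^ 5 ^ n) (Fintype.card T) := by
        rw [hT]; exact Nat.Coprime.pow_right n hu
      have h5 : addOrderOf a ∣ 1 := by
        rw [← Nat.Coprime.gcd_eq_one h4]; exact Nat.dvd_gcd h2 h3
      exact AddMonoid.addOrderOf_eq_one_iff.1 (Nat.dvd_one.1 h5)
    · rw [h.mult_fst n hT hH _ hu]
      exact ha.2)
  exact_mod_cast key

theorem main (hδN : δ ∣ (Fintype.card (T × H) : ℤ)) (y0 : H) (hy0 : y0 ≠ 0) : False := by
  have hoddH := h.oddH n hT hH
  have hδ0 := h.del_ne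
  have hN : Odd (Fintype.card (T × H) : ℤ) := by exact_mod_cast h.odd
  have hδodd : Odd δ := Int.Odd.of_mul_left (m := δ) (n := (Fintype.card (T × H) : ℤ) / δ) (by
    rw [Int.mul_ediv_cancel' hδN]; exact hN)
  have hμodd : Odd μ := by
    by_contra hcon
    rw [Int.not_odd_iff_even] at hcon
    obtain ⟨q, hq⟩ := hcon
    obtain ⟨a, ha⟩ := hδodd
    have h1 := h.par2
    rw [hq, ha] at h1
    have h2 : 2 * (2 * (q * q) + 4 * s + 2 * a + 1 - 6 * q - 2 * (a * a) - 2 * a) = 1 := by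
      linear_combination -h1
    omega
  have hsodd : Odd s := by
    have h1 : Odd ((2 * s + δ) * s) := by rw [h.par]; exact hμodd.mul hN
    exact (Int.odd_mul.1 h1).2
  -- the projection to `H`
  set nf : H → ℤ := fun y => ∑ x, E (x, y) with hnf
  have hnf4 : ∀ y, y ≠ 0 → (4 : ℤ) ∣ nf y := by
    intro y hy
    have h1 := h.four n hT hH y
    rwa [h.zeroH n hT hH y hy, sub_zero] at h1
  have hnf0 : (4 : ℤ) ∣ nf 0 - μ := by
    have h1 := h.four n hT hH 0
    have h2 : E ((0 : T), (0 : H)) = μ := h.zero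
    rwa [h2] at h1
  have hsumnf : ∑ y, nf y = 2 * s + δ := by
    rw [← h.sumE, Fintype.sum_prod_type_right]
  have he4 : (4 : ℤ) ∣ (2 * s + δ) - μ := by
    rw [← hsumnf, ← Finset.add_sum_erase _ _ (Finset.mem_univ (0 : H))]
    have h1 : (4 : ℤ) ∣ ∑ y ∈ (univ : Finset H).erase 0, nf y :=
      Finset.dvd_sum fun y hy => hnf4 y (Finset.ne_of_mem_erase hy)
    have h2 := dvd_add hnf0 h1
    have h3 : nf 0 + ∑ y ∈ (univ : Finset H).erase 0, nf y - μ =
      nf 0 - μ + ∑ y ∈ (univ : Finset H).erase 0, nf y := by ring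
    rw [h3]
    exact h2
  choose q hq using hnf4
  have hψ : ∀ ψ : AddChar H ℂ, ψ ≠ 0 → ft E (chi 0 ψ) = -(δ : ℂ) ∧ ft S (chi 0 ψ) = 0 := by
    intro ψ hψ
    have hint : ∃ w : ℂ, IsIntegral ℤ w ∧ ft E (chi 0 ψ) = (μ : ℂ) + 4 * w := by
      obtain ⟨q0, hq0⟩ := hnf0
      let g : H → ℤ := fun y => if hy : y = 0 then q0 else q y hy
      refine ⟨ft g ψ, ft_integral g ψ, ?_⟩
      rw [← ft_snd]
      unfold ft
      rw [← Finset.add_sum_erase _ _ (Finset.mem_univ (0 : H)),
        ← Finset.add_sum_erase (univ : Finset H) (fun y => (g y : ℂ) * ψ y)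
          (Finset.mem_univ (0 : H)), AddChar.map_zero_eq_one, mul_add, Finset.mul_sum,
        ← add_assoc]
      congr 1
      · have h1 : g 0 = q0 := by simp [g]
        have h2 : nf 0 = μ + 4 * q0 := by linarith
        rw [h1]
        show ((nf 0 : ℤ) : ℂ) * 1 = _
        rw [h2]
        push_cast
        ring
      · refine Finset.sum_congr rfl fun y hy => ?_
        have hy0 := Finset.ne_of_mem_erase hy
        have h1 : g y = q y hy0 := by simp [g, hy0]
        rw [h1]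
        show ((nf y : ℤ) : ℂ) * ψ y = _
        rw [hq y hy0]
        push_cast
        ring
    obtain ⟨w, hw, hwe⟩ := hint
    have hmod : ∀ z : ℤ, ft E (chi 0 ψ) = (z : ℂ) → (4 : ℤ) ∣ z - μ := by
      intro z hz
      have h1 : ((4 : ℤ) : ℂ) * w = ((z - μ : ℤ) : ℂ) := by
        push_cast
        rw [← hz, hwe]
        ring
      obtain ⟨w', hw'⟩ := int_of_integral w hw 4 (z - μ) (by norm_num) h1
      refine ⟨w', ?_⟩
      rw [hw'] at h1
      exact_mod_cast h1.symm
    obtain ⟨a, ha⟩ := hδodd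
    obtain ⟨b, hb⟩ := hμodd
    obtain ⟨c, hc⟩ := hsodd
    rcases h.char (chi 0 ψ) (chi_ne_zero' 0 ψ hψ) with h1 | ⟨h1, h2 | h2⟩
    · exfalso
      have h3 := hmod 0 (by rw [h1]; simp)
      omega
    · exfalso
      have h3 := hmod δ h2
      omega
    · exact ⟨h2, h1⟩
  -- `|H|` divides `s`
  have hHs : (Fintype.card H : ℤ) ∣ s := by
    have h1 := ft_inv (fun y => ∑ x, S (x, y)) (0 : H)
    rw [← Finset.add_sum_erase _ _ (Finset.mem_univ (0 : AddChar H ℂ)), ft_zero] at h1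
    have h2 : ∑ ψ ∈ (univ : Finset (AddChar H ℂ)).erase 0,
        ft (fun y => ∑ x, S (x, y)) ψ * ψ (-0) = 0 := by
      apply Finset.sum_eq_zero
      intro ψ hψ'
      rw [ft_snd, (hψ ψ (Finset.ne_of_mem_erase hψ')).2, zero_mul]
    have h3 : ∑ y, ∑ x, S (x, y) = s := by
      rw [← h.sumS, Fintype.sum_prod_type_right]
    rw [h2, h3, AddChar.zero_apply, mul_one, add_zero] at h1
    refine ⟨∑ x, S (x, 0), ?_⟩
    exact_mod_cast h1
  -- `|H|` divides `δ`
  have hHδ : (Fintype.card H : ℤ) ∣ δ := by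
    have h1 := ft_inv nf y0
    rw [← Finset.add_sum_erase _ _ (Finset.mem_univ (0 : AddChar H ℂ)), ft_zero, hsumnf] at h1
    have h2 : ∑ ψ ∈ (univ : Finset (AddChar H ℂ)).erase 0, ft nf ψ * ψ (-y0) =
        -(δ : ℂ) * ∑ ψ ∈ (univ : Finset (AddChar H ℂ)).erase 0, ψ (-y0) := by
      rw [Finset.mul_sum]
      refine Finset.sum_congr rfl fun ψ hψ' => ?_
      rw [hnf, ft_snd, (hψ ψ (Finset.ne_of_mem_erase hψ')).1]
    have h3 : ∑ ψ : AddChar H ℂ, ψ (-y0) = 0 := by
      rw [AddChar.sum_apply_eq_ite, if_neg (neg_ne_zero.2 hy0)]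
    rw [← Finset.add_sum_erase _ _ (Finset.mem_univ (0 : AddChar H ℂ)),
      AddChar.zero_apply] at h3
    have h4 : ((2 * s + 2 * δ : ℤ) : ℂ) = (((Fintype.card H : ℤ) * nf y0 : ℤ) : ℂ) := by
      rw [h2, AddChar.zero_apply] at h1
      push_cast
      push_cast at h1
      linear_combination h1 + (δ : ℂ) * h3
    have h5 := Int.cast_injective (α := ℂ) h4
    have h6 : (Fintype.card H : ℤ) ∣ 2 * δ := by
      have h7 : 2 * δ = (Fintype.card H : ℤ) * nf y0 - 2 * s := by linarith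
      rw [h7]
      exact _root_.dvd_sub (Dvd.intro _ rfl) (Dvd.dvd.mul_left hHs 2)
    have h7 : IsCoprime (Fintype.card H : ℤ) 2 := by
      have : IsCoprime ((Fintype.card H : ℕ) : ℤ) ((2 : ℕ) : ℤ) :=
        Nat.isCoprime_iff_coprime.2 ((Nat.coprime_two_right).2 hoddH)
      exact this
    exact h7.dvd_of_dvd_mul_left h6
  obtain ⟨d, hd⟩ := hHδ
  have hHpos : (0 : ℤ) < (Fintype.card H : ℤ) := by exact_mod_cast Fintype.card_pos
  -- bezout
  have hco := h.coprime_TH n hT hH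
  obtain ⟨α, β, hαβ⟩ : ∃ α β : ℤ, α * (Fintype.card T : ℤ) + β * (Fintype.card H : ℤ) = 1 :=
    Nat.isCoprime_iff_coprime.2 hco
  -- the fibres over `T`
  have hfib : ∀ (a : T) (ψ : AddChar H ℂ), ψ ≠ 0 → ∃ w : ℂ, IsIntegral ℤ w ∧
      ft (fun y => E (a, y)) ψ = (Fintype.card H : ℂ) * w := by
    intro a ψ hψ'
    have h1 : ∀ η : AddChar T ℂ, ∃ z : ℤ, ft E (chi η ψ) = (Fintype.card H : ℂ) * (z : ℂ) := by
      intro η
      rcases h.char (chi η ψ) (chi_ne_zero' η ψ hψ') with h2 | ⟨_, h2 | h2⟩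
      · exact ⟨0, by rw [h2]; simp⟩
      · exact ⟨d, by rw [h2, hd]; push_cast; ring⟩
      · exact ⟨-d, by rw [h2, hd]; push_cast; ring⟩
    choose z hz using h1
    have h2 := inv_fst E ψ a
    have h3 : ∑ η : AddChar T ℂ, ft E (chi η ψ) * η (-a) =
        (Fintype.card H : ℂ) * ∑ η : AddChar T ℂ, (z η : ℂ) * η (-a) := by
      rw [Finset.mul_sum]
      refine Finset.sum_congr rfl fun η _ => ?_
      rw [hz]
      ring
    rw [h3] at h2
    refine ⟨(α : ℂ) * (∑ η : AddChar T ℂ, (z η : ℂ) * η (-a)) +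
      (β : ℂ) * ft (fun y => E (a, y)) ψ, ?_, ?_⟩
    · apply IsIntegral.add
      · apply IsIntegral.mul
        · exact isIntegral_algebraMap (R := ℤ) (A := ℂ) (x := α)
        · apply IsIntegral.sum
          intro η _
          apply IsIntegral.mul
          · exact isIntegral_algebraMap (R := ℤ) (A := ℂ) (x := z η)
          · exact char_integral η _
      · apply IsIntegral.mul
        · exact isIntegral_algebraMap (R := ℤ) (A := ℂ) (x := β)
        · exact ft_integral _ ψ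
    · have h4 : (α : ℂ) * (Fintype.card T : ℂ) + (β : ℂ) * (Fintype.card H : ℂ) = 1 := by
        exact_mod_cast congrArg (fun z : ℤ => (z : ℂ)) hαβ
      linear_combination (α : ℂ) * (-h2) - ft (fun y => E (a, y)) ψ * h4
  -- constancy of the fibres
  have hconst : ∀ (a : T), a ≠ 0 → ∀ ψ : AddChar H ℂ, ψ ≠ 0 → ft (fun y => E (a, y)) ψ = 0 := by
    intro a ha ψ hψ'
    have hval : ∀ y, E (a, y) = 0 ∨ E (a, y) = 1 := fun y =>
      h.val _ (fun h2 => ha (congrArg Prod.fst h2))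
    have hX : ∀ ψ : AddChar H ℂ, ∃ w : ℂ, IsIntegral ℤ w ∧ (ψ ≠ 0 →
        ft (fun y => E (a, y)) ψ = (Fintype.card H : ℂ) * w) := by
      intro ψ
      by_cases h1 : ψ = 0
      · exact ⟨0, isIntegral_zero, fun h => absurd h1 h⟩
      · obtain ⟨w, h2, h3⟩ := hfib a ψ h1
        exact ⟨w, h2, fun _ => h3⟩
    choose w hw1 hw2 using hX
    set j : ℤ := ∑ y, E (a, y) with hj
    have h1 := parseval_neg (fun y => E (a, y))
    rw [← Finset.add_sum_erase _ _ (Finset.mem_univ (0 : AddChar H ℂ)), neg_zero, ft_zero,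
      ← hj] at h1
    have h2 : ∑ y, (E (a, y) : ℂ) * E (a, y) = (j : ℂ) := by
      rw [hj]
      push_cast
      refine Finset.sum_congr rfl fun y _ => ?_
      rcases hval y with h3 | h3 <;> rw [h3] <;> norm_num
    have h3 : ∑ ψ ∈ (univ : Finset (AddChar H ℂ)).erase 0,
        ft (fun y => E (a, y)) ψ * ft (fun y => E (a, y)) (-ψ) =
        ((Fintype.card H : ℂ) * (Fintype.card H : ℂ)) *
          ∑ ψ ∈ (univ : Finset (AddChar H ℂ)).erase 0, w ψ * w (-ψ) := by
      rw [Finset.mul_sum]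
      refine Finset.sum_congr rfl fun ψ hψ'' => ?_
      have h4 := Finset.ne_of_mem_erase hψ''
      rw [hw2 ψ h4, hw2 (-ψ) (neg_ne_zero.2 h4)]
      ring
    have h4 : IsIntegral ℤ (∑ ψ ∈ (univ : Finset (AddChar H ℂ)).erase 0, w ψ * w (-ψ)) :=
      IsIntegral.sum _ fun ψ _ => (hw1 ψ).mul (hw1 (-ψ))
    rw [h2, h3] at h1
    have h5 : (((Fintype.card H : ℤ) * (Fintype.card H : ℤ) : ℤ) : ℂ) *
        ∑ ψ ∈ (univ : Finset (AddChar H ℂ)).erase 0, w ψ * w (-ψ) =
        ((j * ((Fintype.card H : ℤ) - j) : ℤ) : ℂ) := by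
      push_cast
      linear_combination h1
    obtain ⟨X, hX⟩ := int_of_integral _ h4 _ _ (by positivity) h5
    rw [hX] at h5
    have h6 : (Fintype.card H : ℤ) * (Fintype.card H : ℤ) * X =
        j * ((Fintype.card H : ℤ) - j) := by exact_mod_cast h5
    have hj0 : 0 ≤ j := Finset.sum_nonneg fun y _ => by
      rcases hval y with h3 | h3 <;> rw [h3] <;> norm_num
    have hjH : j ≤ (Fintype.card H : ℤ) := by
      have : j ≤ ∑ _y : H, (1 : ℤ) := Finset.sum_le_sum fun y _ => by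
        rcases hval y with h3 | h3 <;> rw [h3] <;> norm_num
      rwa [Finset.sum_const, nsmul_eq_mul, mul_one, Finset.card_univ] at this
    have hX0 : X = 0 := by
      have h7 : 0 ≤ X := by
        by_contra hneg
        have : (Fintype.card H : ℤ) * (Fintype.card H : ℤ) * X < 0 :=
          mul_neg_of_pos_of_neg (by positivity) (by omega)
        nlinarith
      have h8 : X < 1 := by
        by_contra hge
        have h9 : (Fintype.card H : ℤ) * (Fintype.card H : ℤ) ≤
            (Fintype.card H : ℤ) * (Fintype.card H : ℤ) * X :=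
          le_mul_of_one_le_right (by positivity) (by omega)
        nlinarith
      omega
    rw [hX0, mul_zero] at h6
    have hall : ∀ y y', E (a, y) = E (a, y') := by
      rcases mul_eq_zero.1 h6.symm with h7 | h7
      · have h8 : ∀ y, E (a, y) = 0 := by
          intro y
          have h9 := (Finset.sum_eq_zero_iff_of_nonneg (s := univ) (f := fun y => E (a, y))
            (fun y _ => by rcases hval y with h3 | h3 <;> simp only [h3] <;> norm_num)).1 h7
          exact h9 y (Finset.mem_univ _)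
        intro y y'
        rw [h8, h8]
      · have h8 : ∀ y, 1 - E (a, y) = 0 := by
          intro y
          have h10 : ∑ y, (1 - E (a, y)) = 0 := by
            rw [Finset.sum_sub_distrib, ← hj, Finset.sum_const, nsmul_eq_mul, mul_one,
              Finset.card_univ]
            exact h7
          have h9 := (Finset.sum_eq_zero_iff_of_nonneg (s := univ) (f := fun y => 1 - E (a, y))
            (fun y _ => by rcases hval y with h3 | h3 <;> simp only [h3] <;> norm_num)).1 h10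
          exact h9 y (Finset.mem_univ _)
        intro y y'
        have h9 := h8 y
        have h10 := h8 y'
        omega
    show ∑ y, ((E (a, y) : ℤ) : ℂ) * ψ y = 0
    have h7 : ∀ y ∈ (univ : Finset H), ((E (a, y) : ℤ) : ℂ) * ψ y =
        ((E (a, 0) : ℤ) : ℂ) * ψ y := fun y _ => by rw [hall y 0]
    rw [Finset.sum_congr rfl h7, ← Finset.mul_sum, AddChar.sum_eq_zero_iff_ne_zero.2 hψ', mul_zero]
  -- conclusion
  obtain ⟨ψ, hψ0⟩ : ∃ ψ : AddChar H ℂ, ψ ≠ 0 := by
    by_contra hcon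
    push Not at hcon
    have h1 : ∑ ψ : AddChar H ℂ, ψ (y0) = 0 := by
      rw [AddChar.sum_apply_eq_ite, if_neg hy0]
    have h2 : ∀ ψ : AddChar H ℂ, ψ y0 = 1 := fun ψ => by rw [hcon ψ]; simp
    rw [Finset.sum_congr rfl fun ψ _ => h2 ψ, Finset.sum_const, nsmul_eq_mul, mul_one,
      Finset.card_univ] at h1
    exact absurd h1 (Nat.cast_ne_zero.2 Fintype.card_ne_zero)
  have h1 := (hψ ψ hψ0).1
  rw [ft_chi, ← Finset.add_sum_erase _ _ (Finset.mem_univ (0 : T))] at h1
  have h2 : ∑ x ∈ (univ : Finset T).erase 0, ∑ y : H, (E (x, y) : ℂ) * ((0 : AddChar T ℂ) x * ψ y)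
      = 0 := by
    apply Finset.sum_eq_zero
    intro x hx
    have h3 := hconst x (Finset.ne_of_mem_erase hx) ψ hψ0
    unfold ft at h3
    rw [← h3]
    refine Finset.sum_congr rfl fun y _ => ?_
    simp
  have h3 : ∑ y : H, (E (0, y) : ℂ) * ((0 : AddChar T ℂ) 0 * ψ y) = (μ : ℂ) := by
    rw [← Finset.add_sum_erase _ _ (Finset.mem_univ (0 : H))]
    have h4 : ∑ y ∈ (univ : Finset H).erase 0, (E (0, y) : ℂ) * ((0 : AddChar T ℂ) 0 * ψ y) = 0 := by
      apply Finset.sum_eq_zero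
      intro y hy
      rw [h.zeroH n hT hH y (Finset.ne_of_mem_erase hy)]
      simp
    have h5 : E ((0 : T), (0 : H)) = μ := h.zero
    rw [h4, h5]
    simp
  rw [h2, h3, add_zero] at h1
  have h4 : μ = -δ := by exact_mod_cast h1
  have h5 := h.mudel
  rw [h4] at h5
  nlinarith

end ED

end

end Pool.Agent.OBC
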