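import Mathlib

set_option autoImplicit false
set_option linter.unusedSectionVars false

/-! Two-colourings of a finite abelian group of odd order which are exchanged by doubling and have
no monochromatic sums: the support contains no element of order coprime to five. -/

namespace Pool.Agent.OBC

section
variable {A : Type*} [AddCommGroup A]

/-- a partial two-colouring `1`, `-1`, exchanged by doubling, without monochromatic sums -/
structure Swap (f : A → ℤ) : Prop where
  val : ∀ x, f x = 0 ∨ f x = 1 ∨ f x = -1
  dbl : ∀ x, f ((2 : ℕ) • x) = - f x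
  neg : ∀ x, f (-x) = f x
  tri : ∀ a b, f a = f b → f (a + b) = f a → f a = 0
  mul : ∀ (x : A) (t : ℕ), t.Coprime (addOrderOf x) → (f (t • x) = 0 ↔ f x = 0)

namespace Swap
variable {f : A → ℤ} (h : Swap f)
include h

theorem mid {a b m : A} (hab : f a = f b) (ha : f a ≠ 0) (hm : f m ≠ 0)
    (h2 : (2 : ℕ) • m = a + b) : f m = f a := by
  have h3 := h.dbl m
  rw [h2] at h3
  have h4 : f (a + b) ≠ f a := fun h5 => ha (h.tri a b hab h5)
  rcases h.val a with h5 | h5 | h5 <;> rcases h.val m with h6 | h6 | h6 <;> omega

/-- arithmetic progressions of finite order inside the support are monochromatic -/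
theorem prog {g e : A} (n : ℕ) (hn : 0 < n) (hne : n • e = 0) (hG : ∀ i : ℕ, f (g + i • e) ≠ 0) :
    f (g + e) = f g := by
  by_contra hcon
  have h0 : f g ≠ 0 := by
    have := hG 0
    rwa [zero_nsmul, add_zero] at this
  have h1 : f (g + e) ≠ 0 := by
    have := hG 1
    rwa [one_nsmul] at this
  have hc : f (g + e) = - f g := by
    rcases h.val g with h5 | h5 | h5 <;> rcases h.val (g + e) with h6 | h6 | h6 <;> omega
  have hm1 : f (g - e) ≠ 0 := by
    have h2 := hG (n - 1)
    have h3 : (n - 1) • e = -e := by
      rw [eq_neg_iff_add_eq_zero]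
      nth_rewrite 2 [← one_nsmul e]
      rw [← add_nsmul, Nat.sub_add_cancel hn, hne]
    rwa [h3, ← sub_eq_add_neg] at h2
  have hm1' : f (g - e) = f g := by
    by_contra h2
    have h3 : f (g - e) = f (g + e) := by
      rcases h.val g with h5 | h5 | h5 <;> rcases h.val (g - e) with h6 | h6 | h6 <;> omega
    have h4 := h.mid (m := g) h3 hm1 h0 (by rw [two_nsmul]; abel)
    exact h2 h4.symm
  have key : ∀ i : ℕ, 1 ≤ i → f (g + i • e) = - f g := by
    intro i
    induction i using Nat.strong_induction_on with
    | _ i ih =>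
      intro hi
      by_contra h2
      have h3 : f (g + i • e) = f g := by
        have := hG i
        rcases h.val g with h5 | h5 | h5 <;> rcases h.val (g + i • e) with h6 | h6 | h6 <;> omega
      rcases Nat.even_or_odd' i with ⟨j, hj | hj⟩
      · have h4 := h.mid (a := g) (b := g + i • e) (m := g + j • e) h3.symm h0 (hG j)
          (by rw [hj, two_nsmul, two_mul, add_nsmul]; abel)
        rw [ih j (by omega) (by omega)] at h4
        omega
      · rcases Nat.eq_zero_or_pos j with hj0 | hj0
        · rw [hj, hj0, mul_zero, zero_add, one_nsmul] at h3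
          exact hcon h3
        · have h4 := h.mid (a := g - e) (b := g + i • e) (m := g + j • e) (by rw [h3, hm1'])
            (by rw [hm1']; exact h0) (hG j)
            (by rw [hj, two_nsmul, add_nsmul, two_mul, add_nsmul, one_nsmul]; abel)
          rw [ih j (by omega) (by omega), hm1'] at h4
          omega
  have h5 := key n hn
  rw [hne, add_zero] at h5
  omega

/-- multipliers acting on one coprime component -/
theorem mul_snd {y z : A}
    (hco : (addOrderOf y).Coprime (addOrderOf z)) (u : ℕ) (hu : u.Coprime (addOrderOf z)) :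
    f (y + u • z) = 0 ↔ f (y + z) = 0 := by
  obtain ⟨t, ht1, ht2⟩ := Nat.chineseRemainder hco 1 u
  have hc1 : t.Coprime (addOrderOf y) := by
    unfold Nat.Coprime
    rw [Nat.ModEq.gcd_eq ht1]
    exact Nat.gcd_one_left _
  have hc2 : t.Coprime (addOrderOf z) := by
    unfold Nat.Coprime
    rw [Nat.ModEq.gcd_eq ht2]
    exact hu
  have hdvd : addOrderOf (y + z) ∣ addOrderOf y * addOrderOf z := by
    apply addOrderOf_dvd_of_nsmul_eq_zero
    rw [nsmul_add, mul_nsmul, addOrderOf_nsmul_eq_zero, nsmul_zero, zero_add, mul_comm, mul_nsmul,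
      addOrderOf_nsmul_eq_zero, nsmul_zero]
  have hc3 : t.Coprime (addOrderOf (y + z)) :=
    Nat.Coprime.coprime_dvd_right hdvd (Nat.Coprime.mul_right hc1 hc2)
  have h1 := h.mul (y + z) t hc3
  have e1 : t • y = y := by
    have := (nsmul_eq_nsmul_iff_modEq (x := y) (n := t) (m := 1)).2 ht1
    rwa [one_nsmul] at this
  have e2 : t • z = u • z := (nsmul_eq_nsmul_iff_modEq (x := z)).2 ht2
  rwa [nsmul_add, e1, e2] at h1

end Swap

end

end Pool.Agent.OBC
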